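import Pool.Agent.H.MP_f5ceca_al.Conv.Alg
import Mathlib.RingTheory.Polynomial.Basic
import Mathlib.Algebra.MvPolynomial.Funext
import Mathlib.LinearAlgebra.Matrix.ToLin
import Mathlib.LinearAlgebra.FreeModule.Finite.Basic

/-!
The kernel of a homomorphism of the free algebra to a finite-dimensional algebra over an extension
field is recursively enumerable.
-/

namespace Pool.Agent.H.MP_f5ceca_al.Conv

open CField

universe u

variable {K : Type u} [Field K]

/-- The monomial with exponents `e`. -/
noncomputable def mvm (K : Type u) [Field K] {q : ℕ} (e : Fin q → ℕ) : MvPolynomial (Fin q) K :=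
  MvPolynomial.monomial (Finsupp.equivFunOnFinite.symm e) 1

theorem mvm_linearIndependent {q : ℕ} : LinearIndependent K (mvm K (q := q)) := by
  have h1 := (MvPolynomial.basisMonomials (Fin q) K).linearIndependent
  have h2 : mvm K (q := q) =
      (MvPolynomial.basisMonomials (Fin q) K) ∘ Finsupp.equivFunOnFinite.symm := by
    funext e
    simp [mvm]
  rw [h2]
  exact h1.comp _ (Equiv.injective _)

theorem mvm_span {q : ℕ} : Submodule.span K (Set.range (mvm K (q := q))) = ⊤ := by
  have h1 := (MvPolynomial.basisMonomials (Fin q) K).span_eq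
  rw [← h1]
  congr 1
  ext x
  constructor
  · rintro ⟨w, rfl⟩
    exact ⟨Finsupp.equivFunOnFinite.symm w, by simp [mvm]⟩
  · rintro ⟨w, rfl⟩
    exact ⟨Finsupp.equivFunOnFinite w, by simp [mvm]⟩

theorem mvm_add {q : ℕ} (e f : Fin q → ℕ) : mvm K (e + f) = mvm K e * mvm K f := by
  have : (Finsupp.equivFunOnFinite.symm (e + f) : Fin q →₀ ℕ) =
      Finsupp.equivFunOnFinite.symm e + Finsupp.equivFunOnFinite.symm f := by
    ext i; simp
  rw [mvm, this, mvm, mvm, MvPolynomial.monomial_mul, one_mul]

theorem fun_add_comp {q : ℕ} : Primrec₂ fun e f : Fin q → ℕ => e + f := by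
  have h : Primrec₂ fun (x : (Fin q → ℕ) × (Fin q → ℕ)) (i : Fin q) => x.1 i + x.2 i :=
    Primrec.nat_add.comp
      (Primrec.fin_app.comp (Primrec.fst.comp Primrec.fst) Primrec.snd)
      (Primrec.fin_app.comp (Primrec.snd.comp Primrec.fst) Primrec.snd)
  exact Primrec.fin_curry.2 h

variable (κ : CField K)

/-- Every ideal of a polynomial ring over a constructive field is recursively enumerable. -/
theorem re_ideal {q : ℕ} (I : Ideal (MvPolynomial (Fin q) K)) :
    κ.RESub (mvm K) (I.restrictScalars K) := by
  classical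
  obtain ⟨S, hS⟩ := (inferInstance : IsNoetherianRing (MvPolynomial (Fin q) K)).noetherian I
  have hcode : ∀ x : MvPolynomial (Fin q) K, ∃ P : List (ℕ × (Fin q → ℕ)), κ.ev (mvm K) P = x :=
    fun x => κ.exists_code _ x (by rw [mvm_span]; trivial)
  choose c hc using hcode
  let L : List (List (ℕ × (Fin q → ℕ))) := S.toList.map c
  let e : List (ℕ × (Fin q → ℕ)) × (Fin q → ℕ) → List (ℕ × (Fin q → ℕ)) := fun y =>
    y.1.map fun p => (p.1, y.2 + p.2)
  have he : Computable e := by
    refine comp_map (f := fun y : List (ℕ × (Fin q → ℕ)) × (Fin q → ℕ) => y.1)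
      (g := fun y p => (p.1, y.2 + p.2)) Computable.fst ?_
    exact Computable.pair (Computable.fst.comp Computable.snd)
      (fun_add_comp.to_comp.comp (Computable.snd.comp Computable.fst)
        (Computable.snd.comp Computable.snd))
  have hev : ∀ (P : List (ℕ × (Fin q → ℕ))) (f : Fin q → ℕ),
      κ.ev (mvm K) (e (P, f)) = mvm K f * κ.ev (mvm K) P := by
    intro P f
    simp only [e]
    induction P with
    | nil => simp
    | cons p P ih =>
      rw [List.map_cons, ev_cons, ev_cons, ih, mvm_add, mul_add, mul_smul_comm]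
  have hD : REPred fun y : List (ℕ × (Fin q → ℕ)) × (Fin q → ℕ) => ∃ Q ∈ L, y.1 = Q := by
    refine (cp_exists_mem (p := fun (y : List (ℕ × (Fin q → ℕ)) × (Fin q → ℕ))
      (Q : List (ℕ × (Fin q → ℕ))) => y.1 = Q) ?_ (f := fun _ => L) (Computable.const _)).to_re
    exact (Primrec.eq.comp (Primrec.fst.comp Primrec.fst) Primrec.snd).computablePred
  have h := κ.re_span (κ.ev_eq_zero_cp (mvm_linearIndependent (K := K) (q := q))).to_re hD he
  refine h.of_eq fun P => ?_
  have hset : Submodule.span K {x | ∃ j : List (ℕ × (Fin q → ℕ)) × (Fin q → ℕ),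
      (∃ Q ∈ L, j.1 = Q) ∧ x = κ.ev (mvm K) (e j)} = I.restrictScalars K := by
    apply le_antisymm
    · rw [Submodule.span_le]
      rintro _ ⟨⟨Q, f⟩, ⟨Q', hQ', rfl⟩, rfl⟩
      obtain ⟨g, hg, rfl⟩ := List.mem_map.1 hQ'
      rw [hev, hc]
      have : g ∈ I := hS ▸ Submodule.subset_span (Finset.mem_toList.1 hg)
      exact I.mul_mem_left _ this
    · intro x hx
      have hx' : x ∈ Submodule.span (MvPolynomial (Fin q) K) (S : Set (MvPolynomial (Fin q) K)) :=
        hS ▸ hx
      clear hx
      induction hx' using Submodule.span_induction with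
      | mem x hxS =>
        refine Submodule.subset_span ⟨(c x, 0), ⟨c x, List.mem_map.2 ⟨x, Finset.mem_toList.2 hxS,
          rfl⟩, rfl⟩, ?_⟩
        rw [hev, hc]
        have : mvm K (0 : Fin q → ℕ) = 1 := by
          have h0 : (Finsupp.equivFunOnFinite.symm (0 : Fin q → ℕ) : Fin q →₀ ℕ) = 0 := by
            ext i; simp
          rw [mvm, h0]
          rfl
        rw [this, one_mul]
      | zero => exact Submodule.zero_mem _
      | add x y hx hy ihx ihy => exact Submodule.add_mem _ ihx ihy
      | smul r x hx ih =>
        -- closure of the span under multiplication by polynomials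
        have key : ∀ (f : Fin q → ℕ), ∀ y ∈ Submodule.span K
            {x | ∃ j : List (ℕ × (Fin q → ℕ)) × (Fin q → ℕ),
              (∃ Q ∈ L, j.1 = Q) ∧ x = κ.ev (mvm K) (e j)},
            mvm K f * y ∈ Submodule.span K
            {x | ∃ j : List (ℕ × (Fin q → ℕ)) × (Fin q → ℕ),
              (∃ Q ∈ L, j.1 = Q) ∧ x = κ.ev (mvm K) (e j)} := by
          intro f y hy
          induction hy using Submodule.span_induction with
          | mem y hy =>
            obtain ⟨⟨Q, f'⟩, hQ, rfl⟩ := hy
            refine Submodule.subset_span ⟨(Q, f + f'), hQ, ?_⟩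
            rw [hev, hev, mvm_add, mul_assoc]
          | zero => rw [mul_zero]; exact Submodule.zero_mem _
          | add a b _ _ ha hb => rw [mul_add]; exact Submodule.add_mem _ ha hb
          | smul t a _ ha => rw [mul_smul_comm]; exact Submodule.smul_mem _ _ ha
        have hr : r ∈ Submodule.span K (Set.range (mvm K (q := q))) := by rw [mvm_span]; trivial
        rw [smul_eq_mul]
        induction hr using Submodule.span_induction with
        | mem r hr => obtain ⟨f, rfl⟩ := hr; exact key f x ih
        | zero => rw [zero_mul]; exact Submodule.zero_mem _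
        | add a b _ _ ha hb =>
          rw [add_mul]
          exact Submodule.add_mem _ ha hb
        | smul t a _ ha =>
          rw [smul_mul_assoc]
          exact Submodule.smul_mem _ _ ha
  rw [hset]

section Matrix

variable {n N q : ℕ} (ix : Fin n × Fin N × Fin N ≃ Fin q)

/-- The generic matrix of the letter `j`. -/
noncomputable def genMat (K : Type u) [Field K] {n N q : ℕ} (ix : Fin n × Fin N × Fin N ≃ Fin q)
    (j : Fin n) : Matrix (Fin N) (Fin N) (MvPolynomial (Fin q) K) :=
  fun a b => MvPolynomial.X (ix (j, a, b))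

/-- One step of a path. -/
def stepCode (j : Fin n) (x : Fin N × (Fin q → ℕ)) : List (Fin N × (Fin q → ℕ)) :=
  (List.finRange N).map fun s' => (s', x.2 + Pi.single (ix (j, x.1, s')) 1)

/-- All paths with labels given by a word. -/
def pathCode (r : Fin N) (w : List (Fin n)) : List (Fin N × (Fin q → ℕ)) :=
  w.foldl (fun L j => L.flatMap (stepCode ix j)) [(r, 0)]

/-- The states of a list which end in `s`, as a coded linear combination of monomials. -/
noncomputable def endCode (s : Fin N) (L : List (Fin N × (Fin q → ℕ))) :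
    List (ℕ × (Fin q → ℕ)) :=
  L.flatMap fun x => if x.1 = s then [(κ.one, x.2)] else []

omit [Field K] in
theorem single_comp : Primrec fun i : Fin q => (Pi.single i 1 : Fin q → ℕ) :=
  Primrec.dom_finite _

theorem stepCode_comp : Computable₂ (stepCode ix) := by
  refine comp_map (f := fun _ : Fin n × (Fin N × (Fin q → ℕ)) => List.finRange N)
    (g := fun y s' => (s', y.2.2 + Pi.single (ix (y.1, y.2.1, s')) 1)) (Computable.const _) ?_
  have h1 : Primrec fun z : (Fin n × (Fin N × (Fin q → ℕ))) × Fin N =>
      ix (z.1.1, z.1.2.1, z.2) :=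
    (Primrec.dom_finite ix).comp (Primrec.pair (Primrec.fst.comp Primrec.fst)
      (Primrec.pair (Primrec.fst.comp (Primrec.snd.comp Primrec.fst)) Primrec.snd))
  exact (Primrec.pair Primrec.snd (fun_add_comp.comp
    (Primrec.snd.comp (Primrec.snd.comp Primrec.fst)) (single_comp.comp h1))).to_comp

theorem pathCode_comp (r : Fin N) : Computable (pathCode ix r) := by
  refine comp_foldl (f := fun w : List (Fin n) => w) (g := fun _ => [(r, 0)])
    (h := fun _ y => y.1.flatMap (stepCode ix y.2)) Computable.id (Computable.const _) ?_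
  exact comp_flatMap (f := fun y : List (Fin n) × (List (Fin N × (Fin q → ℕ)) × Fin n) => y.2.1)
    (g := fun y x => stepCode ix y.2.2 x) (Computable.fst.comp Computable.snd)
    ((stepCode_comp ix).comp (Computable.snd.comp (Computable.snd.comp Computable.fst))
      Computable.snd)

theorem endCode_comp (s : Fin N) : Computable (endCode (q := q) κ s) := by
  refine comp_flatMap (f := fun L : List (Fin N × (Fin q → ℕ)) => L)
    (g := fun _ x => if x.1 = s then [(κ.one, x.2)] else []) Computable.id ?_
  have h1 : Primrec fun y : List (Fin N × (Fin q → ℕ)) × (Fin N × (Fin q → ℕ)) =>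
      if y.2.1 = s then [(κ.one, y.2.2)] else [] :=
    Primrec.ite (Primrec.eq.comp (Primrec.fst.comp Primrec.snd) (Primrec.const s))
      (Primrec.list_cons.comp (Primrec.pair (Primrec.const _) (Primrec.snd.comp Primrec.snd))
        (Primrec.const [])) (Primrec.const [])
  exact h1.to_comp

theorem endCode_cons (s : Fin N) (x : Fin N × (Fin q → ℕ)) (L : List (Fin N × (Fin q → ℕ))) :
    κ.ev (mvm K) (endCode κ s (x :: L)) =
      (if x.1 = s then mvm K x.2 else 0) + κ.ev (mvm K) (endCode κ s L) := by
  have : endCode κ s (x :: L) =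
      (if x.1 = s then [(κ.one, x.2)] else []) ++ endCode κ s L := rfl
  rw [this, ev_append]
  split_ifs <;> simp

theorem endCode_append (s : Fin N) (L L' : List (Fin N × (Fin q → ℕ))) :
    κ.ev (mvm K) (endCode κ s (L ++ L')) =
      κ.ev (mvm K) (endCode κ s L) + κ.ev (mvm K) (endCode κ s L') := by
  have : endCode κ s (L ++ L') = endCode κ s L ++ endCode κ s L' := by simp [endCode]
  rw [this, ev_append]

theorem endCode_step (s : Fin N) (j : Fin n) (x : Fin N × (Fin q → ℕ)) :
    κ.ev (mvm K) (endCode κ s (stepCode ix j x)) = mvm K x.2 * genMat K ix j x.1 s := by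
  have h1 : ∀ l : List (Fin N), l.Nodup →
      κ.ev (mvm K) (endCode κ s (l.map fun s' => (s', x.2 + Pi.single (ix (j, x.1, s')) 1))) =
        if s ∈ l then mvm K x.2 * genMat K ix j x.1 s else 0 := by
    intro l
    induction l with
    | nil => intro _; simp [endCode]
    | cons a l ih =>
      intro hl
      rw [List.nodup_cons] at hl
      rw [List.map_cons, endCode_cons, ih hl.2]
      by_cases ha : a = s
      · subst ha
        rw [if_pos rfl, if_neg hl.1, if_pos List.mem_cons_self, add_zero, mvm_add]
        congr 1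
        simp only [genMat, mvm, MvPolynomial.X]
        congr 1
        ext i
        simp [eq_comm]
      · rw [if_neg ha, zero_add]
        by_cases hs : s ∈ l
        · rw [if_pos hs, if_pos (List.mem_cons_of_mem _ hs)]
        · rw [if_neg hs, if_neg]
          intro h
          rcases List.mem_cons.1 h with h | h
          · exact ha h.symm
          · exact hs h
  have h2 := h1 (List.finRange N) (List.nodup_finRange N)
  rw [if_pos (List.mem_finRange s)] at h2
  exact h2

theorem endCode_flatMap (s : Fin N) (j : Fin n) (L : List (Fin N × (Fin q → ℕ))) :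
    κ.ev (mvm K) (endCode κ s (L.flatMap (stepCode ix j))) =
      ∑ a, κ.ev (mvm K) (endCode κ a L) * genMat K ix j a s := by
  induction L with
  | nil => simp [endCode]
  | cons x L ih =>
    rw [List.flatMap_cons, endCode_append, ih, endCode_step]
    simp only [endCode_cons, add_mul, Finset.sum_add_distrib]
    congr 1
    rw [Finset.sum_eq_single x.1]
    · simp
    · intro b _ hb
      rw [if_neg (fun h => hb h.symm), zero_mul]
    · intro h
      exact absurd (Finset.mem_univ _) h

theorem pathCode_spec (r s : Fin N) (w : List (Fin n)) :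
    κ.ev (mvm K) (endCode κ s (pathCode ix r w)) =
      FreeAlgebra.lift K (genMat K ix) (wd K w) r s := by
  induction w using List.reverseRecOn generalizing s with
  | nil =>
    have h0 : mvm K (0 : Fin q → ℕ) = 1 := by
      have h0 : (Finsupp.equivFunOnFinite.symm (0 : Fin q → ℕ) : Fin q →₀ ℕ) = 0 := by
        ext i; simp
      rw [mvm, h0]
      rfl
    rw [wd_nil, map_one]
    change κ.ev (mvm K) (endCode κ s [(r, 0)]) = _
    rw [endCode_cons]
    simp only [h0, Matrix.one_apply]
    simp [endCode]
  | append_singleton w j ih =>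
    have h1 : pathCode ix r (w ++ [j]) = (pathCode ix r w).flatMap (stepCode ix j) := by
      simp [pathCode]
    rw [h1, endCode_flatMap, wd_append, map_mul, Matrix.mul_apply, wd_singleton,
      FreeAlgebra.lift_ι_apply]
    exact Finset.sum_congr rfl fun a _ => by rw [ih]

theorem re_forall_list {α ι : Type*} [Primcodable α] {p : ι → α → Prop}
    (h : ∀ i, REPred (p i)) (l : List ι) : REPred fun a => ∀ i ∈ l, p i a := by
  induction l with
  | nil => exact (re_const (p := True)).of_eq fun a => by simp
  | cons i l ih => exact (re_and (h i) ih).of_eq fun a => by simp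

/-- The kernel of a matrix representation over an extension field is recursively enumerable. -/
theorem re_ker_matrix {E : Type*} [CommRing E] [Algebra K E]
    (V : Fin n → Matrix (Fin N) (Fin N) E) :
    κ.RESub (wd K) (LinearMap.ker (FreeAlgebra.lift K V).toLinearMap) := by
  classical
  let ix : Fin n × Fin N × Fin N ≃ Fin (Fintype.card (Fin n × Fin N × Fin N)) :=
    Fintype.equivFin _
  let φ : MvPolynomial (Fin (Fintype.card (Fin n × Fin N × Fin N))) K →ₐ[K] E :=
    MvPolynomial.aeval fun i => V (ix.symm i).1 (ix.symm i).2.1 (ix.symm i).2.2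
  have hφ : φ.mapMatrix.comp (FreeAlgebra.lift K (genMat K ix)) = FreeAlgebra.lift K V := by
    apply FreeAlgebra.hom_ext
    funext j
    ext a b
    simp [φ, genMat]
  let p : Ideal (MvPolynomial (Fin (Fintype.card (Fin n × Fin N × Fin N))) K) := RingHom.ker φ
  have hp := re_ideal κ p
  let ent : Fin N × Fin N → FreeAlgebra K (Fin n) →ₗ[K]
      MvPolynomial (Fin (Fintype.card (Fin n × Fin N × Fin N))) K := fun rs =>
    { toFun := fun z => FreeAlgebra.lift K (genMat K ix) z rs.1 rs.2
      map_add' := fun x y => by simp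
      map_smul' := fun c x => by simp }
  have h1 : ∀ rs : Fin N × Fin N, κ.RESub (wd K) ((p.restrictScalars K).comap (ent rs)) := by
    intro rs
    refine κ.re_comap hp (ent rs)
      (e := fun w => endCode κ rs.2 (pathCode ix rs.1 w))
      ((endCode_comp κ rs.2).comp (pathCode_comp ix rs.1)) fun w => ?_
    exact (pathCode_spec κ ix rs.1 rs.2 w).symm
  have h2 := re_forall_list (fun rs => h1 rs) (Finset.univ : Finset (Fin N × Fin N)).toList
  refine h2.of_eq fun P => ?_
  rw [LinearMap.mem_ker]
  change _ ↔ FreeAlgebra.lift K V (κ.ev (wd K) P) = 0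
  rw [← hφ]
  constructor
  · intro h
    ext a b
    have := h (a, b) (by simp)
    exact this
  · intro h rs _
    change φ (FreeAlgebra.lift K (genMat K ix) (κ.ev (wd K) P) rs.1 rs.2) = 0
    have := congrFun (congrFun h rs.1) rs.2
    exact this

/-- The kernel of a homomorphism of the free algebra to a finite-dimensional algebra over an
extension field is recursively enumerable. -/
theorem re_ker {E Q : Type*} [Field E] [Algebra K E] [Ring Q] [Algebra E Q] [Algebra K Q]
    [IsScalarTower K E Q] [Module.Finite E Q] (v : Fin n → Q) :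
    κ.RESub (wd K) (LinearMap.ker (FreeAlgebra.lift K v).toLinearMap) := by
  classical
  let b := Module.finBasis E Q
  let ρ : Q →ₐ[K] Matrix (Fin (Module.finrank E Q)) (Fin (Module.finrank E Q)) E :=
    (Algebra.leftMulMatrix b).restrictScalars K
  have hρ : Function.Injective ρ := Algebra.leftMulMatrix_injective b
  have h1 := re_ker_matrix κ (fun j => ρ (v j))
  refine h1.of_eq fun P => ?_
  have h2 : FreeAlgebra.lift K (fun j => ρ (v j)) = ρ.comp (FreeAlgebra.lift K v) := by
    apply FreeAlgebra.hom_ext
    funext j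
    simp
  rw [LinearMap.mem_ker, LinearMap.mem_ker]
  change FreeAlgebra.lift K (fun j => ρ (v j)) (κ.ev (wd K) P) = 0 ↔
    FreeAlgebra.lift K v (κ.ev (wd K) P) = 0
  rw [h2]
  constructor
  · intro h
    exact hρ (by rw [map_zero]; exact h)
  · intro h
    change ρ (FreeAlgebra.lift K v (κ.ev (wd K) P)) = 0
    rw [h, map_zero]

/-- The identities with values in a subspace of a finite-dimensional algebra are recursively
enumerable. -/
theorem re_idt {E B : Type*} [Field E] [Infinite E] [Algebra K E] [Ring B] [Algebra E B]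
    [Algebra K B] [IsScalarTower K E B] [Module.Finite E B] (J : Submodule E B) :
    REPred fun P : List (ℕ × List (Fin n)) => ∀ y : Fin n → B, (∀ j, y j ∈ J) →
      FreeAlgebra.lift K y (κ.ev (wd K) P) = 0 := by
  classical
  let b := Module.finBasis E B
  let ρE : B →ₐ[E] Matrix (Fin (Module.finrank E B)) (Fin (Module.finrank E B)) E :=
    Algebra.leftMulMatrix b
  let ρ : B →ₐ[K] Matrix (Fin (Module.finrank E B)) (Fin (Module.finrank E B)) E :=
    ρE.restrictScalars K
  have hρ : Function.Injective ρ := Algebra.leftMulMatrix_injective b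
  let c := Module.finBasis E J
  let σ := Fin n × Fin (Module.finrank E J)
  let Y : Fin n → Matrix (Fin (Module.finrank E B)) (Fin (Module.finrank E B))
      (MvPolynomial σ E) := fun j r s =>
    ∑ i, MvPolynomial.X (j, i) * MvPolynomial.C (ρE (c i : B) r s)
  let yt : (σ → E) → Fin n → B := fun t j => ∑ i, t (j, i) • (c i : B)
  have hyJ : ∀ t j, yt t j ∈ J := fun t j =>
    Submodule.sum_mem _ fun i _ => J.smul_mem _ (c i).2
  have hsurj : ∀ y : Fin n → B, (∀ j, y j ∈ J) → ∃ t, yt t = y := by
    intro y hy
    refine ⟨fun ji => c.repr ⟨y ji.1, hy ji.1⟩ ji.2, ?_⟩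
    funext j
    have h1 := c.sum_repr ⟨y j, hy j⟩
    have h2 := congrArg (fun x : J => (x : B)) h1
    simp only [Submodule.coe_sum, Submodule.coe_smul] at h2
    exact h2
  let ev' : (σ → E) → MvPolynomial σ E →ₐ[K] E := fun t =>
    (MvPolynomial.aeval t : MvPolynomial σ E →ₐ[E] E).restrictScalars K
  have hcomp : ∀ t, (ev' t).mapMatrix.comp (FreeAlgebra.lift K Y) =
      ρ.comp (FreeAlgebra.lift K (yt t)) := by
    intro t
    apply FreeAlgebra.hom_ext
    funext j
    ext r s
    simp only [Function.comp_apply, AlgHom.comp_apply, FreeAlgebra.lift_ι_apply]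
    change MvPolynomial.aeval t (∑ i, MvPolynomial.X (j, i) *
      MvPolynomial.C (ρE (c i : B) r s)) = ρE (∑ i, t (j, i) • (c i : B)) r s
    rw [map_sum, map_sum, Matrix.sum_apply]
    refine Finset.sum_congr rfl fun i _ => ?_
    rw [map_smul, Matrix.smul_apply, map_mul, MvPolynomial.aeval_X, MvPolynomial.aeval_C,
      smul_eq_mul]
    rfl
  refine (re_ker_matrix κ Y).of_eq fun P => ?_
  rw [LinearMap.mem_ker]
  change FreeAlgebra.lift K Y (κ.ev (wd K) P) = 0 ↔ _
  constructor
  · intro h y hy
    obtain ⟨t, rfl⟩ := hsurj y hy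
    apply hρ
    rw [map_zero]
    have h1 := congrArg (fun φ => φ (κ.ev (wd K) P)) (hcomp t)
    simp only [AlgHom.comp_apply, h, map_zero] at h1
    exact h1.symm
  · intro h
    ext1 r s
    apply MvPolynomial.funext
    intro t
    have h1 := congrArg (fun φ => φ (κ.ev (wd K) P)) (hcomp t)
    simp only [AlgHom.comp_apply, h (yt t) (hyJ t), map_zero] at h1
    have h2 := congrFun (congrFun h1 r) s
    rw [Matrix.zero_apply, map_zero]
    exact h2

end Matrix

end Pool.Agent.H.MP_f5ceca_al.Conv
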