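import Pool.Agent.H.MP_f5ceca_al.Conv.Re
import Mathlib.LinearAlgebra.FreeAlgebra
import Mathlib.RingTheory.TwoSidedIdeal.Operations

/-!
The free algebra `K⟨x_1, …, x_k⟩` with the numbered basis of words: zero test, recursively
enumerable two-sided ideals, words with at least one letter.
-/

namespace Pool.Agent.H.MP_f5ceca_al.Conv

open CField

universe u

variable {K : Type u} [Field K] {k : ℕ}

/-- The product of the letters of a word. -/
noncomputable def wd (K : Type u) [Field K] {k : ℕ} (w : List (Fin k)) : FreeAlgebra K (Fin k) :=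
  (w.map (FreeAlgebra.ι K)).prod

@[simp] theorem wd_nil : wd K ([] : List (Fin k)) = 1 := rfl

theorem wd_append (u v : List (Fin k)) : wd K (u ++ v) = wd K u * wd K v := by
  simp [wd]

theorem wd_singleton (i : Fin k) : wd K [i] = FreeAlgebra.ι K i := by simp [wd]

theorem wd_cons (i : Fin k) (w : List (Fin k)) : wd K (i :: w) = FreeAlgebra.ι K i * wd K w := by
  simp [wd]

theorem basis_eq_wd (w : List (Fin k)) :
    FreeAlgebra.basisFreeMonoid K (Fin k) (FreeMonoid.ofList w) = wd K w := by
  have h1 : FreeAlgebra.basisFreeMonoid K (Fin k) (FreeMonoid.ofList w) =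
      FreeAlgebra.equivMonoidAlgebraFreeMonoid.symm
        (MonoidAlgebra.of K (FreeMonoid (Fin k)) (FreeMonoid.ofList w)) := rfl
  rw [h1]
  change (MonoidAlgebra.lift K (FreeAlgebra K (Fin k)) (FreeMonoid (Fin k))
    (FreeMonoid.lift (FreeAlgebra.ι K))) _ = _
  rw [MonoidAlgebra.lift_of, FreeMonoid.lift_apply]
  rfl

theorem wd_linearIndependent : LinearIndependent K (wd K (k := k)) := by
  have h1 := (FreeAlgebra.basisFreeMonoid K (Fin k)).linearIndependent
  have h2 : wd K (k := k) =
      (FreeAlgebra.basisFreeMonoid K (Fin k)) ∘ (FreeMonoid.ofList : List (Fin k) ≃ _) := by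
    funext w
    exact (basis_eq_wd w).symm
  rw [h2]
  exact h1.comp _ (Equiv.injective _)

theorem wd_span : Submodule.span K (Set.range (wd K (k := k))) = ⊤ := by
  have h1 := (FreeAlgebra.basisFreeMonoid K (Fin k)).span_eq
  rw [← h1]
  congr 1
  ext x
  constructor
  · rintro ⟨w, rfl⟩
    exact ⟨FreeMonoid.ofList w, basis_eq_wd w⟩
  · rintro ⟨w, rfl⟩
    exact ⟨FreeMonoid.toList w, (basis_eq_wd _).symm⟩

variable (κ : CField K)

theorem wd_zero_cp : ComputablePred fun P : List (ℕ × List (Fin k)) => κ.ev (wd K) P = 0 :=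
  κ.ev_eq_zero_cp wd_linearIndependent

theorem wd_exists_code (x : FreeAlgebra K (Fin k)) :
    ∃ P : List (ℕ × List (Fin k)), κ.ev (wd K) P = x :=
  κ.exists_code _ x (by rw [wd_span]; trivial)

/-- A two-sided ideal of an algebra as a subspace. -/
def idealSub {A : Type*} [Ring A] [Algebra K A] (I : TwoSidedIdeal A) : Submodule K A where
  carrier := {x | x ∈ I}
  add_mem' := I.add_mem
  zero_mem' := I.zero_mem
  smul_mem' c x hx := by
    change c • x ∈ I
    rw [Algebra.smul_def]
    exact I.mul_mem_left _ _ hx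

@[simp] theorem mem_idealSub {A : Type*} [Ring A] [Algebra K A] (I : TwoSidedIdeal A) (x : A) :
    x ∈ idealSub (K := K) I ↔ x ∈ I := Iff.rfl

/-- The operators of left and right multiplication by letters. -/
noncomputable def lrOp (K : Type u) [Field K] {k : ℕ} :
    Fin k ⊕ Fin k → FreeAlgebra K (Fin k) →ₗ[K] FreeAlgebra K (Fin k)
  | Sum.inl i => LinearMap.mulLeft K (FreeAlgebra.ι K i)
  | Sum.inr i => LinearMap.mulRight K (FreeAlgebra.ι K i)

theorem mul_mem_opClosure (S : Set (FreeAlgebra K (Fin k))) (y : FreeAlgebra K (Fin k)) :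
    ∀ x ∈ opClosure (lrOp K) S, y * x ∈ opClosure (lrOp K) S ∧ x * y ∈ opClosure (lrOp K) S := by
  induction y using FreeAlgebra.induction with
  | grade0 c =>
    intro x hx
    rw [← Algebra.commutes, ← Algebra.smul_def]
    exact ⟨Submodule.smul_mem _ _ hx, Submodule.smul_mem _ _ hx⟩
  | grade1 i =>
    intro x hx
    exact ⟨op_mem_opClosure (lrOp K) S (Sum.inl i) hx, op_mem_opClosure (lrOp K) S (Sum.inr i) hx⟩
  | mul a b ha hb =>
    intro x hx
    refine ⟨?_, ?_⟩
    · rw [mul_assoc]
      exact (ha _ (hb x hx).1).1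
    · rw [← mul_assoc]
      exact (hb _ (ha x hx).2).2
  | add a b ha hb =>
    intro x hx
    rw [add_mul, mul_add]
    exact ⟨Submodule.add_mem _ (ha x hx).1 (hb x hx).1,
      Submodule.add_mem _ (ha x hx).2 (hb x hx).2⟩

/-- The two-sided ideal generated by a set is its closure under multiplication by letters. -/
theorem idealSub_span (S : Set (FreeAlgebra K (Fin k))) :
    idealSub (TwoSidedIdeal.span S) = opClosure (lrOp K) S := by
  apply le_antisymm
  · let I : TwoSidedIdeal (FreeAlgebra K (Fin k)) :=
      TwoSidedIdeal.mk' (opClosure (lrOp K) S : Set (FreeAlgebra K (Fin k)))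
        (Submodule.zero_mem _) (fun hx hy => Submodule.add_mem _ hx hy)
        (fun hx => Submodule.neg_mem _ hx) (fun {x y} hy => (mul_mem_opClosure S x y hy).1)
        (fun {x y} hx => (mul_mem_opClosure S y x hx).2)
    have h : TwoSidedIdeal.span S ≤ I := by
      rw [TwoSidedIdeal.span_le]
      intro x hx
      have : x ∈ I := by
        rw [TwoSidedIdeal.mem_mk']
        exact subset_opClosure _ _ hx
      exact this
    intro x hx
    have : x ∈ I := h hx
    rwa [TwoSidedIdeal.mem_mk'] at this
  · refine opClosure_le (fun x hx => TwoSidedIdeal.subset_span hx) ?_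
    rintro (i | i) x hx
    · exact TwoSidedIdeal.mul_mem_left (TwoSidedIdeal.span S) (FreeAlgebra.ι K i) x hx
    · exact TwoSidedIdeal.mul_mem_right (TwoSidedIdeal.span S) x (FreeAlgebra.ι K i) hx

/-- The two-sided ideal generated by a recursively enumerable set is recursively enumerable. -/
theorem re_twoSided (S : Set (FreeAlgebra K (Fin k)))
    (hS : REPred fun P : List (ℕ × List (Fin k)) => κ.ev (wd K) P ∈ S) :
    κ.RESub (wd K) (idealSub (TwoSidedIdeal.span S)) := by
  rw [idealSub_span]
  have h1 : S = {x | ∃ P : List (ℕ × List (Fin k)), κ.ev (wd K) P ∈ S ∧ x = κ.ev (wd K) P} := by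
    ext x
    constructor
    · intro hx
      obtain ⟨P, rfl⟩ := wd_exists_code κ x
      exact ⟨P, hx, rfl⟩
    · rintro ⟨P, hP, rfl⟩
      exact hP
  rw [h1]
  let o : Fin k ⊕ Fin k → List (Fin k) → List (ℕ × List (Fin k)) := fun a w =>
    Sum.elim (fun i => [(κ.one, i :: w)]) (fun i => [(κ.one, w ++ [i])]) a
  have ho : Computable₂ o := by
    have e1 : Computable₂ fun (x : (Fin k ⊕ Fin k) × List (Fin k)) (i : Fin k) =>
        [(κ.one, i :: x.2)] :=
      (Computable.list_cons.comp (Computable.pair (Computable.const _)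
        (Computable.list_cons.comp Computable.snd (Computable.snd.comp Computable.fst)))
        (Computable.const []))
    have e2 : Computable₂ fun (x : (Fin k ⊕ Fin k) × List (Fin k)) (i : Fin k) =>
        [(κ.one, x.2 ++ [i])] :=
      (Computable.list_cons.comp (Computable.pair (Computable.const _)
        (Computable.list_concat.comp (Computable.snd.comp Computable.fst) Computable.snd))
        (Computable.const []))
    refine (Computable.sumCasesOn (f := fun x : (Fin k ⊕ Fin k) × List (Fin k) => x.1)
      Computable.fst e1 e2).of_eq ?_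
    rintro ⟨x | x, w⟩ <;> rfl
  refine κ.re_opClosure (wd_zero_cp κ).to_re (D := fun P => κ.ev (wd K) P ∈ S)
    hS (e := fun P => P) Computable.id (lrOp K) ho ?_
  rintro (i | i) w
  · simp [o, lrOp, wd_cons]
  · simp [o, lrOp, wd_append, wd_singleton]

/-- The union of a recursively enumerable set and of a finite set. -/
theorem re_union_list (T : Set (FreeAlgebra K (Fin k)))
    (hT : REPred fun P : List (ℕ × List (Fin k)) => κ.ev (wd K) P ∈ T)
    {R : Set (FreeAlgebra K (Fin k))} (hR : R.Finite) :
    REPred fun P : List (ℕ × List (Fin k)) => κ.ev (wd K) P ∈ T ∪ R := by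
  choose c hc using wd_exists_code κ (k := k)
  have h1 : REPred fun P : List (ℕ × List (Fin k)) =>
      ∃ Q ∈ hR.toFinset.toList.map c, κ.ev (wd K) P = κ.ev (wd K) Q := by
    have heq : ComputablePred fun x : List (ℕ × List (Fin k)) × List (ℕ × List (Fin k)) =>
        κ.ev (wd K) x.1 = κ.ev (wd K) x.2 := by
      refine (cp_comp (wd_zero_cp κ) (κ.sub_comp (W := List (Fin k)))).of_eq fun x => ?_
      rw [ev_append, ev_lneg, add_neg_eq_zero]
    exact (cp_exists_mem (p := fun P Q => κ.ev (wd K) P = κ.ev (wd K) Q) heq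
      (f := fun _ => hR.toFinset.toList.map c) (Computable.const _)).to_re
  refine (re_or hT h1).of_eq fun P => ?_
  rw [Set.mem_union]
  refine or_congr Iff.rfl ?_
  constructor
  · rintro ⟨Q, hQ, hPQ⟩
    obtain ⟨x, hx, rfl⟩ := List.mem_map.1 hQ
    rw [hPQ, hc]
    exact hR.mem_toFinset.1 (Finset.mem_toList.1 hx)
  · intro hP
    exact ⟨c (κ.ev (wd K) P),
      List.mem_map.2 ⟨_, Finset.mem_toList.2 (hR.mem_toFinset.2 hP), rfl⟩, (hc _).symm⟩

/-- Passage from all words to a computable family of words. -/
theorem cp_words {W : Type*} [Primcodable W] (g : W → List (Fin k)) (hg : Computable g)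
    {N : Set (FreeAlgebra K (Fin k))}
    (hN : ComputablePred fun P : List (ℕ × List (Fin k)) => κ.ev (wd K) P ∈ N) :
    ComputablePred fun P : List (ℕ × W) => κ.ev (fun w => wd K (g w)) P ∈ N := by
  have h1 : Computable fun P : List (ℕ × W) => P.map fun p => (p.1, g p.2) :=
    comp_map (g := fun (_ : List (ℕ × W)) (p : ℕ × W) => (p.1, g p.2)) Computable.id
      (Computable.pair (Computable.fst.comp Computable.snd)
        (hg.comp (Computable.snd.comp Computable.snd)))
  refine (cp_comp hN h1).of_eq fun P => ?_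
  have : κ.ev (wd K) (P.map fun p => (p.1, g p.2)) = κ.ev (fun w => wd K (g w)) P := by
    simp [CField.ev, Function.comp_def]
  rw [this]

end Pool.Agent.H.MP_f5ceca_al.Conv
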