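import Mathlib.Computability.RE
import Mathlib.Tactic

/-!
Computability toolbox for the converse direction of MP_f5ceca_al: computable list operations and
closure properties of recursively enumerable predicates.
-/

namespace Pool.Agent.H.MP_f5ceca_al.Conv

open Computable

section Lists

variable {α β γ σ : Type*} [Primcodable α] [Primcodable β] [Primcodable γ] [Primcodable σ]

/-- Folding a computable function over a computable list is computable. -/
theorem comp_foldl {f : α → List β} {g : α → σ} {h : α → σ × β → σ}
    (hf : Computable f) (hg : Computable g) (hh : Computable₂ h) :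
    Computable fun a => (f a).foldl (fun s b => h a (s, b)) (g a) := by
  have h1 : Computable fun p : α × (ℕ × σ) => (f p.1)[p.2.1]? :=
    Computable.list_getElem?.comp (hf.comp Computable.fst) (Computable.fst.comp Computable.snd)
  have h2 : Computable fun p : α × (ℕ × σ) => p.2.2 := Computable.snd.comp Computable.snd
  have h3 : Computable₂ fun (p : α × (ℕ × σ)) (b : β) => h p.1 (p.2.2, b) :=
    hh.comp (Computable.fst.comp Computable.fst)
      (Computable.pair (h2.comp Computable.fst) Computable.snd)
  have h4 : Computable₂ fun (a : α) (p : ℕ × σ) =>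
      (Option.casesOn (motive := fun _ => σ) ((f a)[p.1]?) p.2 fun b => h a (p.2, b) : σ) :=
    Computable.option_casesOn h1 h2 h3
  have h5 := Computable.nat_rec (Computable.list_length.comp hf) hg h4
  refine h5.of_eq fun a => ?_
  have key : ∀ n, n ≤ (f a).length →
      (Nat.rec (motive := fun _ => σ) (g a) (fun n s =>
        (Option.casesOn (motive := fun _ => σ) ((f a)[n]?) s fun b => h a (s, b) : σ)) n : σ) =
        ((f a).take n).foldl (fun s b => h a (s, b)) (g a) := by
    intro n
    induction n with
    | zero => intro _; simp
    | succ n ih =>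
      intro hn
      have hn' : n < (f a).length := hn
      simp only
      rw [ih (by omega)]
      rw [List.getElem?_eq_getElem hn', List.take_succ_eq_append_getElem hn', List.foldl_append]
      simp
  have := key _ le_rfl
  simpa using this

theorem comp_map {f : α → List β} {g : α → β → σ} (hf : Computable f) (hg : Computable₂ g) :
    Computable fun a => (f a).map (g a) := by
  have h1 : Computable₂ fun (a : α) (p : List σ × β) => p.1 ++ [g a p.2] :=
    Computable.list_concat.comp (Computable.fst.comp Computable.snd)
      (hg.comp Computable.fst (Computable.snd.comp Computable.snd))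
  have h2 := comp_foldl hf (Computable.const ([] : List σ)) h1
  refine h2.of_eq fun a => ?_
  have key : ∀ (l : List β) (s : List σ),
      l.foldl (fun s b => s ++ [g a b]) s = s ++ l.map (g a) := by
    intro l
    induction l with
    | nil => simp
    | cons b l ih => intro s; simp [ih]
  simpa using key (f a) []

theorem comp_flatMap {f : α → List β} {g : α → β → List σ} (hf : Computable f)
    (hg : Computable₂ g) : Computable fun a => (f a).flatMap (g a) := by
  have h1 : Computable₂ fun (a : α) (p : List σ × β) => p.1 ++ g a p.2 :=
    Computable.list_append.comp (Computable.fst.comp Computable.snd)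
      (hg.comp Computable.fst (Computable.snd.comp Computable.snd))
  have h2 := comp_foldl hf (Computable.const ([] : List σ)) h1
  refine h2.of_eq fun a => ?_
  have key : ∀ (l : List β) (s : List σ),
      l.foldl (fun s b => s ++ g a b) s = s ++ l.flatMap (g a) := by
    intro l
    induction l with
    | nil => simp
    | cons b l ih => intro s; simp [ih]
  simpa using key (f a) []

theorem comp_all {f : α → List β} {g : α → β → Bool} (hf : Computable f)
    (hg : Computable₂ g) : Computable fun a => (f a).all (g a) := by
  have h1 : Computable₂ fun (a : α) (p : Bool × β) => (p.1 && g a p.2) :=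
    Primrec.and.to_comp.comp (Computable.fst.comp Computable.snd)
      (hg.comp Computable.fst (Computable.snd.comp Computable.snd))
  have h2 := comp_foldl hf (Computable.const true) h1
  refine h2.of_eq fun a => ?_
  have key : ∀ (l : List β) (s : Bool),
      l.foldl (fun s b => (s && g a b)) s = (s && l.all (g a)) := by
    intro l
    induction l with
    | nil => simp
    | cons b l ih => intro s; simp only [List.foldl_cons, ih, List.all_cons, Bool.and_assoc]
  simpa using key (f a) true

theorem comp_any {f : α → List β} {g : α → β → Bool} (hf : Computable f)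
    (hg : Computable₂ g) : Computable fun a => (f a).any (g a) := by
  have h1 : Computable₂ fun (a : α) (p : Bool × β) => (p.1 || g a p.2) :=
    Primrec.or.to_comp.comp (Computable.fst.comp Computable.snd)
      (hg.comp Computable.fst (Computable.snd.comp Computable.snd))
  have h2 := comp_foldl hf (Computable.const false) h1
  refine h2.of_eq fun a => ?_
  have key : ∀ (l : List β) (s : Bool),
      l.foldl (fun s b => (s || g a b)) s = (s || l.any (g a)) := by
    intro l
    induction l with
    | nil => simp
    | cons b l ih => intro s; simp only [List.foldl_cons, ih, List.any_cons, Bool.or_assoc]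
  simpa using key (f a) false

end Lists

section RE

variable {α β γ : Type*} [Primcodable α] [Primcodable β] [Primcodable γ]

/-- A predicate is recursively enumerable iff it is the projection of a computable one. -/
theorem re_iff {p : α → Prop} :
    REPred p ↔ ∃ q : α → ℕ → Bool, Computable₂ q ∧ ∀ a, p a ↔ ∃ n, q a n = true := by
  constructor
  · intro hp
    obtain ⟨c, hc⟩ := Nat.Partrec.Code.exists_code.1 (show Nat.Partrec _ from hp)
    refine ⟨fun a n => (Nat.Partrec.Code.evaln n c (Encodable.encode a)).isSome, ?_, ?_⟩
    · have h1 : Primrec₂ fun (a : α) (n : ℕ) =>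
          Nat.Partrec.Code.evaln n c (Encodable.encode a) :=
        Nat.Partrec.Code.primrec_evaln.comp
          (Primrec.pair (Primrec.pair Primrec.snd (Primrec.const c))
            (Primrec.encode.comp Primrec.fst))
      exact (Primrec.option_isSome.comp h1).to_comp
    · intro a
      have h1 : p a ↔ (Nat.Partrec.Code.eval c (Encodable.encode a)).Dom := by
        rw [hc]
        simp [Part.dom_iff_mem, Part.assert]
      rw [h1, Part.dom_iff_mem]
      constructor
      · rintro ⟨y, hy⟩
        obtain ⟨k, hk⟩ := Nat.Partrec.Code.evaln_complete.1 hy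
        exact ⟨k, Option.isSome_iff_exists.2 ⟨y, Option.mem_def.1 hk⟩⟩
      · rintro ⟨k, hk⟩
        obtain ⟨y, hy⟩ := Option.isSome_iff_exists.1 hk
        exact ⟨y, Nat.Partrec.Code.evaln_sound (Option.mem_def.2 hy)⟩
  · rintro ⟨q, hq, h⟩
    have h1 : Partrec fun a => Nat.rfind fun n => (Part.some (q a n) : Part Bool) :=
      Partrec.rfind hq.partrec₂
    refine h1.dom_re.of_eq fun a => ?_
    rw [Nat.rfind_dom', h a]
    constructor
    · rintro ⟨n, hn, -⟩
      exact ⟨n, by simpa using hn⟩
    · rintro ⟨n, hn⟩
      exact ⟨n, by simpa using hn, fun _ => trivial⟩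

/-- Monotone version of `re_iff`. -/
theorem re_iff_mono {p : α → Prop} :
    REPred p ↔ ∃ q : α → ℕ → Bool, Computable₂ q ∧ (∀ a m n, m ≤ n → q a m = true → q a n = true) ∧
      ∀ a, p a ↔ ∃ n, q a n = true := by
  constructor
  · intro hp
    obtain ⟨q, hq, h⟩ := re_iff.1 hp
    refine ⟨fun a n => (List.range (n + 1)).any (q a), ?_, ?_, ?_⟩
    · have := comp_any (f := fun p : α × ℕ => List.range (p.2 + 1)) (g := fun p k => q p.1 k)
        (Primrec.list_range.to_comp.comp (Computable.succ.comp Computable.snd))
        (hq.comp (Computable.fst.comp Computable.fst) Computable.snd)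
      exact this
    · intro a m n hmn hm
      simp only [List.any_eq_true, List.mem_range] at hm ⊢
      obtain ⟨x, hx, hx'⟩ := hm
      exact ⟨x, by omega, hx'⟩
    · intro a
      rw [h a]
      constructor
      · rintro ⟨n, hn⟩
        exact ⟨n, by simp only [List.any_eq_true, List.mem_range]; exact ⟨n, by omega, hn⟩⟩
      · rintro ⟨n, hn⟩
        simp only [List.any_eq_true, List.mem_range] at hn
        obtain ⟨x, -, hx⟩ := hn
        exact ⟨x, hx⟩
  · rintro ⟨q, hq, -, h⟩
    exact re_iff.2 ⟨q, hq, h⟩

theorem re_comp {p : β → Prop} (hp : REPred p) {f : α → β} (hf : Computable f) :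
    REPred fun a => p (f a) := by
  obtain ⟨q, hq, h⟩ := re_iff.1 hp
  exact re_iff.2 ⟨fun a n => q (f a) n, hq.comp (hf.comp Computable.fst) Computable.snd,
    fun a => h (f a)⟩

theorem re_const {p : Prop} : REPred fun _ : α => p := by
  by_cases h : p
  · exact re_iff.2 ⟨fun _ _ => true, Computable.const true, fun a => by simp [h]⟩
  · exact re_iff.2 ⟨fun _ _ => false, Computable.const false, fun a => by simp [h]⟩

theorem re_and {p q : α → Prop} (hp : REPred p) (hq : REPred q) : REPred fun a => p a ∧ q a := by
  obtain ⟨f, hf, hf'⟩ := re_iff.1 hp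
  obtain ⟨g, hg, hg'⟩ := re_iff.1 hq
  refine re_iff.2 ⟨fun a n => f a n.unpair.1 && g a n.unpair.2, ?_, ?_⟩
  · exact Primrec.and.to_comp.comp
      (hf.comp Computable.fst (Computable.fst.comp (Computable.unpair.comp Computable.snd)))
      (hg.comp Computable.fst (Computable.snd.comp (Computable.unpair.comp Computable.snd)))
  · intro a
    rw [hf' a, hg' a]
    constructor
    · rintro ⟨⟨m, hm⟩, ⟨n, hn⟩⟩
      exact ⟨Nat.pair m n, by simp [hm, hn]⟩
    · rintro ⟨n, hn⟩
      simp only [Bool.and_eq_true] at hn
      exact ⟨⟨_, hn.1⟩, ⟨_, hn.2⟩⟩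

theorem re_or {p q : α → Prop} (hp : REPred p) (hq : REPred q) : REPred fun a => p a ∨ q a := by
  obtain ⟨f, hf, hf'⟩ := re_iff.1 hp
  obtain ⟨g, hg, hg'⟩ := re_iff.1 hq
  refine re_iff.2 ⟨fun a n => f a n || g a n, Primrec.or.to_comp.comp hf hg, ?_⟩
  intro a
  rw [hf' a, hg' a]
  constructor
  · rintro (⟨m, hm⟩ | ⟨m, hm⟩)
    · exact ⟨m, by simp [hm]⟩
    · exact ⟨m, by simp [hm]⟩
  · rintro ⟨n, hn⟩
    simp only [Bool.or_eq_true] at hn
    exact hn.imp (fun h => ⟨n, h⟩) (fun h => ⟨n, h⟩)

/-- Projections of recursively enumerable predicates are recursively enumerable. -/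
theorem re_exists {p : α → β → Prop} (hp : REPred fun x : α × β => p x.1 x.2) :
    REPred fun a => ∃ b, p a b := by
  obtain ⟨q, hq, h⟩ := re_iff.1 hp
  refine re_iff.2 ⟨fun a n => Option.casesOn (Encodable.decode (α := β) n.unpair.1) false
    fun b => q (a, b) n.unpair.2, ?_, ?_⟩
  · have h1 : Computable fun x : α × ℕ => (Encodable.decode (α := β) x.2.unpair.1) :=
      Computable.decode.comp (Computable.fst.comp (Computable.unpair.comp Computable.snd))
    have h2 : Computable₂ fun (x : α × ℕ) (b : β) => q (x.1, b) x.2.unpair.2 :=
      hq.comp (Computable.pair (Computable.fst.comp Computable.fst) Computable.snd)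
        (Computable.snd.comp (Computable.unpair.comp (Computable.snd.comp Computable.fst)))
    exact Computable.option_casesOn h1 (Computable.const false) h2
  · intro a
    constructor
    · rintro ⟨b, hb⟩
      obtain ⟨n, hn⟩ := (h (a, b)).1 hb
      exact ⟨Nat.pair (Encodable.encode b) n, by simpa using hn⟩
    · rintro ⟨n, hn⟩
      simp only at hn
      rcases hd : (Encodable.decode (α := β) n.unpair.1) with _ | b
      · rw [hd] at hn; simp at hn
      · rw [hd] at hn
        exact ⟨b, (h (a, b)).2 ⟨_, hn⟩⟩

/-- Bounded universal quantification over lists preserves recursive enumerability. -/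
theorem re_forall_mem {p : α → β → Prop} (hp : REPred fun x : α × β => p x.1 x.2)
    {f : α → List β} (hf : Computable f) : REPred fun a => ∀ b ∈ f a, p a b := by
  obtain ⟨q, hq, hm, h⟩ := re_iff_mono.1 hp
  refine re_iff.2 ⟨fun a n => (f a).all fun b => q (a, b) n, ?_, ?_⟩
  · exact comp_all (f := fun x : α × ℕ => f x.1) (g := fun x b => q (x.1, b) x.2)
      (hf.comp Computable.fst)
      (hq.comp (Computable.pair (Computable.fst.comp Computable.fst) Computable.snd)
        (Computable.snd.comp Computable.fst))
  · intro a
    simp only [List.all_eq_true]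
    generalize f a = l
    constructor
    · intro hl
      induction l with
      | nil => exact ⟨0, by simp⟩
      | cons b l ih =>
        obtain ⟨n, hn⟩ := ih fun b hb => hl b (List.mem_cons_of_mem _ hb)
        obtain ⟨m, hm'⟩ := (h (a, b)).1 (hl b List.mem_cons_self)
        refine ⟨max m n, fun c hc => ?_⟩
        rcases List.mem_cons.1 hc with rfl | hc
        · exact hm _ _ _ (le_max_left _ _) hm'
        · exact hm _ _ _ (le_max_right _ _) (hn c hc)
    · rintro ⟨n, hn⟩ b hb
      exact (h (a, b)).2 ⟨n, hn b hb⟩

theorem re_computable {p : α → Prop} (h : REPred p) (h' : REPred fun a => ¬ p a) :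
    ComputablePred p := ComputablePred.computable_iff_re_compl_re'.2 ⟨h, h'⟩

/-- Computable predicates from Boolean computable functions. -/
theorem cp_of_bool {p : α → Prop} {f : α → Bool} (hf : Computable f)
    (h : ∀ a, p a ↔ f a = true) : ComputablePred p :=
  ComputablePred.computable_iff.2 ⟨f, hf, funext fun a => propext (h a)⟩

theorem cp_comp {p : β → Prop} (hp : ComputablePred p) {f : α → β} (hf : Computable f) :
    ComputablePred fun a => p (f a) := by
  obtain ⟨g, hg, rfl⟩ := ComputablePred.computable_iff.1 hp
  exact cp_of_bool (hg.comp hf) fun a => Iff.rfl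

theorem cp_and {p q : α → Prop} (hp : ComputablePred p) (hq : ComputablePred q) :
    ComputablePred fun a => p a ∧ q a := by
  obtain ⟨f, hf, rfl⟩ := ComputablePred.computable_iff.1 hp
  obtain ⟨g, hg, rfl⟩ := ComputablePred.computable_iff.1 hq
  exact cp_of_bool (Primrec.and.to_comp.comp hf hg) fun a => by simp

theorem cp_or {p q : α → Prop} (hp : ComputablePred p) (hq : ComputablePred q) :
    ComputablePred fun a => p a ∨ q a := by
  obtain ⟨f, hf, rfl⟩ := ComputablePred.computable_iff.1 hp
  obtain ⟨g, hg, rfl⟩ := ComputablePred.computable_iff.1 hq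
  exact cp_of_bool (Primrec.or.to_comp.comp hf hg) fun a => by simp

theorem cp_forall_mem {p : α → β → Prop} (hp : ComputablePred fun x : α × β => p x.1 x.2)
    {f : α → List β} (hf : Computable f) : ComputablePred fun a => ∀ b ∈ f a, p a b := by
  obtain ⟨g, hg, hg'⟩ := ComputablePred.computable_iff.1 hp
  have h' : ∀ a b, p a b ↔ g (a, b) = true := fun a b => iff_of_eq (congrFun hg' (a, b))
  exact cp_of_bool (comp_all hf (g := fun a b => g (a, b)) hg) fun a => by
    simp only [List.all_eq_true, h']

theorem cp_exists_mem {p : α → β → Prop} (hp : ComputablePred fun x : α × β => p x.1 x.2)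
    {f : α → List β} (hf : Computable f) : ComputablePred fun a => ∃ b ∈ f a, p a b := by
  obtain ⟨g, hg, hg'⟩ := ComputablePred.computable_iff.1 hp
  have h' : ∀ a b, p a b ↔ g (a, b) = true := fun a b => iff_of_eq (congrFun hg' (a, b))
  exact cp_of_bool (comp_any hf (g := fun a b => g (a, b)) hg) fun a => by
    simp only [List.any_eq_true, h']

end RE

end Pool.Agent.H.MP_f5ceca_al.Conv
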