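import Mathlib

/-!
Leading monomials of subspaces of `α →₀ K` with respect to an injective map `key` of `α` into a
well-ordered set: standard monomials form a basis of the quotient, stability of the set of leading
monomials under triangular operators.
-/

namespace Pool.Agent.H.MP_f5ceca_al.Conv

open Finsupp

variable {K : Type*} [Field K] {α β : Type*} [LinearOrder β] (key : α → β)

/-- The set of leading monomials of a subspace. -/
def LMset (N : Submodule K (α →₀ K)) : Set α :=
  {a | ∃ f ∈ N, f a ≠ 0 ∧ ∀ b, f b ≠ 0 → key b ≤ key a}

theorem LMset_mono {N N' : Submodule K (α →₀ K)} (h : N ≤ N') : LMset key N ⊆ LMset key N' := by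
  rintro a ⟨f, hf, h1, h2⟩
  exact ⟨f, h hf, h1, h2⟩

theorem exists_lm {f : α →₀ K} (hf : f ≠ 0) : ∃ a, f a ≠ 0 ∧ ∀ b, f b ≠ 0 → key b ≤ key a := by
  obtain ⟨a, ha, h⟩ := Finset.exists_max_image f.support key (Finsupp.support_nonempty_iff.2 hf)
  exact ⟨a, Finsupp.mem_support_iff.1 ha, fun b hb => h b (Finsupp.mem_support_iff.2 hb)⟩

/-- Linear independence of the standard monomials modulo `N`. -/
theorem std_indep (N : Submodule K (α →₀ K)) {f : α →₀ K} (hf : f ∈ N)
    (h : ∀ a, f a ≠ 0 → a ∉ LMset key N) : f = 0 := by
  by_contra hne
  obtain ⟨a, ha, hmax⟩ := exists_lm key hne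
  exact h a ha ⟨f, hf, ha, hmax⟩

/-- The standard monomials span the quotient modulo `N`. -/
theorem std_span [WellFoundedLT β] (hinj : Function.Injective key) (N : Submodule K (α →₀ K))
    (a : α) :
    single a (1 : K) ∈ N ⊔ Submodule.span K {x | ∃ b, b ∉ LMset key N ∧ x = single b (1 : K)} := by
  have key' : ∀ c : β, ∀ a : α, key a = c →
      single a (1 : K) ∈
        N ⊔ Submodule.span K {x | ∃ b, b ∉ LMset key N ∧ x = single b (1 : K)} := by
    intro c
    induction c using WellFoundedLT.induction with
    | ind c ih =>
      intro a ha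
      by_cases h : a ∈ LMset key N
      · obtain ⟨f, hf, hfa, hmax⟩ := h
        have h1 : f = single a (f a) + f.erase a := (Finsupp.single_add_erase a f).symm
        have h2 : single a (1 : K) = (f a)⁻¹ • f - (f a)⁻¹ • f.erase a := by
          rw [← smul_sub]
          have : f - f.erase a = single a (f a) := by
            nth_rewrite 1 [h1]; simp
          rw [this, Finsupp.smul_single, smul_eq_mul, inv_mul_cancel₀ hfa]
        rw [h2]
        refine Submodule.sub_mem _ (Submodule.smul_mem _ _ (Submodule.mem_sup_left hf))
          (Submodule.smul_mem _ _ ?_)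
        have h3 : f.erase a = ∑ b ∈ (f.erase a).support, (f.erase a b) • single b (1 : K) := by
          conv_lhs => rw [← Finsupp.sum_single (f.erase a)]
          rw [Finsupp.sum]
          refine Finset.sum_congr rfl fun b _ => ?_
          rw [Finsupp.smul_single, smul_eq_mul, mul_one]
        rw [h3]
        refine Submodule.sum_mem _ fun b hb => Submodule.smul_mem _ _ ?_
        have hb' := Finsupp.mem_support_iff.1 hb
        have hba : b ≠ a := by
          rintro rfl
          exact hb' Finsupp.erase_same
        rw [Finsupp.erase_ne hba] at hb'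
        have hle := hmax b hb'
        have hlt : key b < key a := lt_of_le_of_ne hle fun h => hba (hinj h)
        exact ih (key b) (ha ▸ hlt) b rfl
      · exact Submodule.mem_sup_right (Submodule.subset_span ⟨a, h, rfl⟩)
  exact key' _ a rfl

/-- Stability of the leading monomials under a triangular operator. -/
theorem LMset_stable (hinj : Function.Injective key) {N : Submodule K (α →₀ K)}
    {S : α → α} (hS : ∀ a b, key a < key b → key (S a) < key (S b))
    {T : (α →₀ K) →ₗ[K] (α →₀ K)}
    (hT : ∀ a, T (single a 1) - single (S a) 1 ∈ supported K K {b | key b < key (S a)})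
    (hTN : ∀ f ∈ N, T f ∈ N) {a : α} (ha : a ∈ LMset key N) : S a ∈ LMset key N := by
  obtain ⟨f, hf, hfa, hmax⟩ := ha
  have h1 : T f - f a • single (S a) 1 ∈ supported K K {b | key b < key (S a)} := by
    have h2 : f = f a • single a 1 + f.erase a := by
      conv_lhs => rw [← Finsupp.single_add_erase a f]
      rw [Finsupp.smul_single, smul_eq_mul, mul_one]
    have h3 : T f - f a • single (S a) 1 =
        f a • (T (single a 1) - single (S a) 1) + T (f.erase a) := by
      conv_lhs => rw [h2]
      rw [map_add, map_smul, smul_sub]
      simp only [Finsupp.add_apply, Finsupp.smul_apply, Finsupp.single_eq_same,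
        Finsupp.erase_same, smul_eq_mul, mul_one, add_zero]
      abel
    rw [h3]
    refine Submodule.add_mem _ (Submodule.smul_mem _ _ (hT a)) ?_
    have h4 : f.erase a ∈ supported K K {b | key b < key a} := by
      rw [Finsupp.mem_supported]
      intro b hb
      have hb' := Finsupp.mem_support_iff.1 hb
      have hba : b ≠ a := by
        rintro rfl
        exact hb' Finsupp.erase_same
      rw [Finsupp.erase_ne hba] at hb'
      exact lt_of_le_of_ne (hmax b hb') fun h => hba (hinj h)
    have h5 : (supported K K {b | key b < key a}) ≤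
        (supported K K {b | key b < key (S a)}).comap T := by
      rw [Finsupp.supported_eq_span_single, Submodule.span_le]
      rintro _ ⟨b, hb, rfl⟩
      have hb' := hS b a hb
      have h6 := hT b
      have h7 : T (single b 1) = (T (single b 1) - single (S b) 1) + single (S b) 1 := by abel
      rw [SetLike.mem_coe, Submodule.mem_comap, h7]
      refine Submodule.add_mem _ (Finsupp.supported_mono ?_ h6) ?_
      · intro c hc
        exact lt_trans hc hb'
      · exact Finsupp.single_mem_supported K _ hb'
    exact h5 h4
  have h8 : ∀ b, ¬ key b < key (S a) → (T f) b = (f a • single (S a) (1 : K)) b := by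
    intro b hb
    rw [Finsupp.mem_supported] at h1
    by_contra hne
    have : b ∈ (T f - f a • single (S a) 1).support := by
      rw [Finsupp.mem_support_iff, Finsupp.sub_apply]
      exact sub_ne_zero.2 hne
    exact hb (h1 this)
  refine ⟨T f, hTN f hf, ?_, ?_⟩
  · rw [h8 _ (lt_irrefl _)]
    simpa using hfa
  · intro b hb
    by_contra hlt
    have hlt' : ¬ key b < key (S a) := fun h => hlt h.le
    rw [h8 b hlt'] at hb
    have hbS : b = S a := by
      by_contra hne
      apply hb
      rw [Finsupp.smul_apply, Finsupp.single_eq_of_ne hne, smul_zero]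
    exact hlt (le_of_eq (by rw [hbS]))

/-- Adding elements of bounded degree does not change the leading monomials of large degree. -/
theorem LMset_sup_of_bound {deg : α → ℕ} (hdeg : ∀ a b, deg a < deg b → key a < key b)
    {N₁ N₂ : Submodule K (α →₀ K)} {B : ℕ} (h2 : N₂ ≤ supported K K {a | deg a ≤ B}) {a : α}
    (ha : B < deg a) (h : a ∈ LMset key (N₁ ⊔ N₂)) : a ∈ LMset key N₁ := by
  obtain ⟨f, hf, hfa, hmax⟩ := h
  obtain ⟨g, hg, k, hk, rfl⟩ := Submodule.mem_sup.1 hf
  have hk' := h2 hk
  rw [Finsupp.mem_supported] at hk'
  have hka : k a = 0 := by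
    by_contra hne
    have := hk' (Finsupp.mem_support_iff.2 hne)
    change deg _ ≤ B at this
    omega
  refine ⟨g, hg, by simpa [hka] using hfa, fun b hb => ?_⟩
  by_cases hkb : k b = 0
  · exact hmax b (by simpa [hkb] using hb)
  · have := hk' (Finsupp.mem_support_iff.2 hkb)
    change deg _ ≤ B at this
    exact (hdeg b a (by omega)).le

end Pool.Agent.H.MP_f5ceca_al.Conv
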