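import Pool.Agent.H.MP_f5ceca_al.Conv.Comp
import Pool.Agent.H.MP_f5ceca_al.Conv.Lm

/-!
The set of leading monomials of certain subspaces of free modules over polynomial rings is
computable (Dickson's lemma).

Monomials: `(i, x, y)`, `i : Fin t`, `x : Fin p → ℕ` (outer exponents), `y : Fin n → ℕ` (inner
exponents); order: inner degree first.
-/

namespace Pool.Agent.H.MP_f5ceca_al.Conv

open Finsupp

/-! ### Well-quasi-orders and computability -/

/-- Every subset of a well-quasi-ordered set has a finite basis. -/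
theorem finite_basis {α : Type*} {r : α → α → Prop} (hr : WellQuasiOrdered r) (S : Set α) :
    ∃ T : List α, (∀ t ∈ T, t ∈ S) ∧ ∀ a ∈ S, ∃ t ∈ T, r t a := by
  by_contra hc
  push Not at hc
  choose g hg1 hg2 using hc
  let L : ℕ → {T : List α // ∀ t ∈ T, t ∈ S} := fun n =>
    Nat.rec ⟨[], by simp⟩ (fun _ T => ⟨g T.1 T.2 :: T.1, by
      intro t ht
      rcases List.mem_cons.1 ht with rfl | ht
      · exact hg1 _ _
      · exact T.2 t ht⟩) n
  have hL : ∀ n, (L (n + 1)).1 = g (L n).1 (L n).2 :: (L n).1 := fun n => rfl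
  obtain ⟨m, n, hmn, h⟩ := hr fun n => g (L n).1 (L n).2
  refine hg2 (L n).1 (L n).2 _ ?_ h
  have key : ∀ k, g (L m).1 (L m).2 ∈ (L (m + 1 + k)).1 := by
    intro k
    induction k with
    | zero => rw [Nat.add_zero, hL]; exact List.mem_cons_self
    | succ k ih =>
      have : (L (m + 1 + (k + 1))).1 = _ := hL (m + 1 + k)
      rw [this]
      exact List.mem_cons_of_mem _ ih
  obtain ⟨k, rfl⟩ := Nat.exists_eq_add_of_lt hmn
  have := key k
  rwa [show m + 1 + k = m + k + 1 by ring] at this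

/-- A subset which is closed under a computable well-quasi-order is computable. -/
theorem cp_of_wqo {α : Type*} [Primcodable α] {r : α → α → Prop} (hr : WellQuasiOrdered r)
    (hc : ComputablePred fun x : α × α => r x.1 x.2) {S : Set α}
    (hS : ∀ a b, a ∈ S → r a b → b ∈ S) : ComputablePred fun a => a ∈ S := by
  obtain ⟨T, hT1, hT2⟩ := finite_basis hr S
  have h := cp_exists_mem (p := fun a t => r t a)
    (cp_comp hc (Computable.pair Computable.snd Computable.fst)) (f := fun _ : α => T)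
    (Computable.const T)
  refine h.of_eq fun a => ⟨?_, fun ha => hT2 a ha⟩
  rintro ⟨t, ht, hta⟩
  exact hS t a (hT1 t ht) hta

/-! ### Monomials -/

/-- The monomials `(i, x, y)`. -/
abbrev Mon (t p n : ℕ) : Type := Fin t × (Fin p → ℕ) × (Fin n → ℕ)

variable {t p n : ℕ}

/-- The inner degree. -/
def kdeg (a : Mon t p n) : ℕ := ∑ j, a.2.2 j

/-- The well-ordered set used for comparing monomials. -/
abbrev KeyT (t p n : ℕ) : Type := ℕ ×ₗ Fin t ×ₗ Lex (Fin p → ℕ) ×ₗ Lex (Fin n → ℕ)

/-- The key of a monomial. -/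
def mkey (a : Mon t p n) : KeyT t p n :=
  toLex (kdeg a, toLex (a.1, toLex (toLex a.2.1, toLex a.2.2)))

theorem mkey_injective : Function.Injective (mkey : Mon t p n → KeyT t p n) := by
  intro a b h
  have h1 := congrArg (fun k => (ofLex k).2) h
  have h2 := congrArg (fun k => (ofLex k).1) h1
  have h3 := congrArg (fun k => (ofLex k).2) h1
  have h4 := congrArg (fun k => ofLex (ofLex k).1) h3
  have h5 := congrArg (fun k => ofLex (ofLex k).2) h3
  simp only [mkey, ofLex_toLex] at h2 h4 h5
  exact Prod.ext h2 (Prod.ext h4 h5)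

theorem mkey_lt_of_kdeg {a b : Mon t p n} (h : kdeg a < kdeg b) : mkey a < mkey b :=
  Prod.Lex.lt_iff.2 (Or.inl h)

/-- Multiplication of a monomial by the monomial with exponents `v`. -/
def shift (v : (Fin p → ℕ) × (Fin n → ℕ)) (a : Mon t p n) : Mon t p n := (a.1, a.2 + v)

theorem kdeg_shift (v : (Fin p → ℕ) × (Fin n → ℕ)) (a : Mon t p n) :
    kdeg (shift v a) = kdeg a + ∑ j, v.2 j := by
  simp [kdeg, shift, Finset.sum_add_distrib]

theorem lex_add_lt {m : ℕ} {x y : Fin m → ℕ} (v : Fin m → ℕ) (h : toLex x < toLex y) :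
    toLex (x + v) < toLex (y + v) := by
  obtain ⟨i, h1, h2⟩ := h
  refine ⟨i, fun j hj => ?_, ?_⟩
  · have := h1 j hj
    change x j = y j at this
    change x j + v j = y j + v j
    rw [this]
  · change x i < y i at h2
    change x i + v i < y i + v i
    omega

theorem mkey_shift_lt (v : (Fin p → ℕ) × (Fin n → ℕ)) {a b : Mon t p n} (h : mkey a < mkey b) :
    mkey (shift v a) < mkey (shift v b) := by
  rcases Prod.Lex.lt_iff.1 h with h | ⟨h0, h⟩
  · apply mkey_lt_of_kdeg
    rw [kdeg_shift, kdeg_shift]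
    have h' : kdeg a < kdeg b := h
    omega
  · refine Prod.Lex.lt_iff.2 (Or.inr ⟨?_, ?_⟩)
    · change kdeg (shift v a) = kdeg (shift v b)
      have h' : kdeg a = kdeg b := h0
      rw [kdeg_shift, kdeg_shift, h']
    rcases Prod.Lex.lt_iff.1 h with h | ⟨h1, h⟩
    · exact Prod.Lex.lt_iff.2 (Or.inl h)
    · refine Prod.Lex.lt_iff.2 (Or.inr ⟨h1, ?_⟩)
      rcases Prod.Lex.lt_iff.1 h with h | ⟨h2, h⟩
      · exact Prod.Lex.lt_iff.2 (Or.inl (lex_add_lt v.1 h))
      · refine Prod.Lex.lt_iff.2 (Or.inr ⟨?_, lex_add_lt v.2 h⟩)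
        have h2' : a.2.1 = b.2.1 := h2
        change a.2.1 + v.1 = b.2.1 + v.1
        rw [h2']

/-- The comparison relation for inner exponents: the larger one is congruent modulo `d`, and equal
if the smaller one is at most `B`. -/
def rk (d B x y : ℕ) : Prop := x ≤ y ∧ x % d = y % d ∧ min x (B + 1) = min y (B + 1)

instance (d B : ℕ) : IsPreorder ℕ (rk d B) where
  refl _ := ⟨le_rfl, rfl, rfl⟩
  trans _ _ _ h1 h2 := ⟨h1.1.trans h2.1, h1.2.1.trans h2.2.1, h1.2.2.trans h2.2.2⟩

theorem rk_wqo {d : ℕ} (hd : 0 < d) (B : ℕ) : WellQuasiOrdered (rk d B) := by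
  intro f
  obtain ⟨m, m', hmm, h1, h2, h3⟩ :=
    ((Finite.wellQuasiOrdered (α := Fin d) (· = ·)).prod
      ((Finite.wellQuasiOrdered (α := Fin (B + 2)) (· = ·)).prod
        (wellQuasiOrdered_le (α := ℕ))))
      fun i => (⟨f i % d, Nat.mod_lt _ hd⟩, ⟨min (f i) (B + 1), by omega⟩, f i)
  refine ⟨m, m', hmm, h3, ?_, ?_⟩
  · exact congrArg Fin.val h1
  · exact congrArg Fin.val h2

/-- The comparison relation for monomials. -/
def rmon (d : Fin n → ℕ) (B : ℕ) (a b : Mon t p n) : Prop :=
  a.1 = b.1 ∧ (∀ i, a.2.1 i ≤ b.2.1 i) ∧ ∀ j, rk (d j) B (a.2.2 j) (b.2.2 j)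

theorem rmon_wqo {d : Fin n → ℕ} (hd : ∀ j, 0 < d j) (B : ℕ) :
    WellQuasiOrdered (rmon d B : Mon t p n → Mon t p n → Prop) := by
  have hp : IsPreorder (Fin p → ℕ) (fun a b : Fin p → ℕ => ∀ i, a i ≤ b i) :=
    { refl _ _ := le_rfl
      trans _ _ _ h1 h2 i := (h1 i).trans (h2 i) }
  exact (Finite.wellQuasiOrdered (α := Fin t) (· = ·)).prod
    ((WellQuasiOrdered.pi fun _ : Fin p => wellQuasiOrdered_le (α := ℕ)).prod
      (WellQuasiOrdered.pi fun j : Fin n => rk_wqo (hd j) B))

theorem rmon_cp (d : Fin n → ℕ) (B : ℕ) :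
    ComputablePred fun x : Mon t p n × Mon t p n => rmon d B x.1 x.2 := by
  have h1 : ComputablePred fun x : Mon t p n × Mon t p n => x.1.1 = x.2.1 :=
    (Primrec.eq.comp (Primrec.fst.comp Primrec.fst) (Primrec.fst.comp Primrec.snd)).computablePred
  have h2 : ComputablePred fun x : Mon t p n × Mon t p n =>
      ∀ i ∈ List.finRange p, x.1.2.1 i ≤ x.2.2.1 i := by
    refine cp_forall_mem (p := fun (x : Mon t p n × Mon t p n) (i : Fin p) =>
      x.1.2.1 i ≤ x.2.2.1 i) ?_ (Computable.const _)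
    exact (Primrec.nat_le.comp
      (Primrec.fin_app.comp (Primrec.fst.comp (Primrec.snd.comp (Primrec.fst.comp Primrec.fst)))
        Primrec.snd)
      (Primrec.fin_app.comp (Primrec.fst.comp (Primrec.snd.comp (Primrec.snd.comp Primrec.fst)))
        Primrec.snd)).computablePred
  have h3 : ComputablePred fun x : Mon t p n × Mon t p n =>
      ∀ j ∈ List.finRange n, rk (d j) B (x.1.2.2 j) (x.2.2.2 j) := by
    refine cp_forall_mem (p := fun (x : Mon t p n × Mon t p n) (j : Fin n) =>
      rk (d j) B (x.1.2.2 j) (x.2.2.2 j)) ?_ (Computable.const _)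
    have e1 : Primrec fun y : (Mon t p n × Mon t p n) × Fin n => y.1.1.2.2 y.2 :=
      Primrec.fin_app.comp (Primrec.snd.comp (Primrec.snd.comp (Primrec.fst.comp Primrec.fst)))
        Primrec.snd
    have e2 : Primrec fun y : (Mon t p n × Mon t p n) × Fin n => y.1.2.2.2 y.2 :=
      Primrec.fin_app.comp (Primrec.snd.comp (Primrec.snd.comp (Primrec.snd.comp Primrec.fst)))
        Primrec.snd
    have e3 : Primrec fun y : (Mon t p n × Mon t p n) × Fin n => d y.2 :=
      (Primrec.dom_finite d).comp Primrec.snd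
    refine cp_and ?_ (cp_and ?_ ?_)
    · exact (Primrec.nat_le.comp e1 e2).computablePred
    · exact (Primrec.eq.comp (Primrec.nat_mod.comp e1 e3)
        (Primrec.nat_mod.comp e2 e3)).computablePred
    · exact (Primrec.eq.comp (Primrec.nat_min.comp e1 (Primrec.const _))
        (Primrec.nat_min.comp e2 (Primrec.const _))).computablePred
  refine (cp_and h1 (cp_and h2 h3)).of_eq fun x => ?_
  simp [rmon]

/-! ### The main lemma -/

variable {K : Type*} [Field K]

/-- **Cone lemma.** Let `N = N₁ ⊔ N₂` be a subspace of the space with basis `Mon t p n` which is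
stable under multiplication by the outer variables, such that `N₁` is stable under multiplication by
the outer variables and under operators `Q j` which multiply by the `d j`-th power of the `j`-th
inner variable up to terms of smaller inner degree, and such that the inner degrees of the elements
of `N₂` are bounded. Then the set of leading monomials of `N` is computable. -/
theorem cone_cp (N N₁ N₂ : Submodule K (Mon t p n →₀ K)) (d : Fin n → ℕ) (hd : ∀ j, 0 < d j)
    (B : ℕ) (X : Fin p → (Mon t p n →₀ K) →ₗ[K] (Mon t p n →₀ K))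
    (Q : Fin n → (Mon t p n →₀ K) →ₗ[K] (Mon t p n →₀ K))
    (hX : ∀ i a, X i (single a 1) = single (shift (Pi.single i 1, 0) a) 1)
    (hQ : ∀ j a, Q j (single a 1) - single (shift (0, Pi.single j (d j)) a) 1 ∈
      supported K K {b | kdeg b < kdeg a + d j})
    (hN : N = N₁ ⊔ N₂) (hXN : ∀ i, ∀ f ∈ N, X i f ∈ N) (hXN₁ : ∀ i, ∀ f ∈ N₁, X i f ∈ N₁)
    (hQN₁ : ∀ j, ∀ f ∈ N₁, Q j f ∈ N₁) (hN₂ : N₂ ≤ supported K K {a | kdeg a ≤ B}) :
    ComputablePred fun a => a ∈ LMset mkey N := by
  have hX' : ∀ (N' : Submodule K (Mon t p n →₀ K)), (∀ i, ∀ f ∈ N', X i f ∈ N') → ∀ i a,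
      a ∈ LMset mkey N' → shift (Pi.single i 1, 0) a ∈ LMset mkey N' := by
    intro N' hN' i a ha
    refine LMset_stable mkey mkey_injective (fun _ _ => mkey_shift_lt _) (T := X i) ?_ (hN' i) ha
    intro a
    rw [hX, sub_self]
    exact Submodule.zero_mem _
  have hQ' : ∀ j a, a ∈ LMset mkey N₁ → shift (0, Pi.single j (d j)) a ∈ LMset mkey N₁ := by
    intro j a ha
    refine LMset_stable mkey mkey_injective (fun _ _ => mkey_shift_lt _) (T := Q j) ?_ (hQN₁ j) ha
    intro a
    refine Finsupp.supported_mono ?_ (hQ j a)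
    intro b hb
    apply mkey_lt_of_kdeg
    rw [kdeg_shift]
    simpa using hb
  let M (S : Set (Mon t p n)) : AddSubmonoid ((Fin p → ℕ) × (Fin n → ℕ)) :=
    { carrier := {v | ∀ a ∈ S, shift v a ∈ S}
      zero_mem' := fun a ha => by
        have : shift 0 a = a := by simp [shift]
        rw [this]; exact ha
      add_mem' := fun {v w} hv hw a ha => by
        have : shift (v + w) a = shift w (shift v a) := by simp [shift, add_assoc]
        rw [this]
        exact hw _ (hv _ ha) }
  have hMX : ∀ (N' : Submodule K (Mon t p n →₀ K)), (∀ i, ∀ f ∈ N', X i f ∈ N') →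
      ∀ v : Fin p → ℕ, (v, 0) ∈ M (LMset mkey N') := by
    intro N' hN' v
    have h1 : (v, (0 : Fin n → ℕ)) =
        ∑ i, v i • ((Pi.single i 1, 0) : (Fin p → ℕ) × (Fin n → ℕ)) := by
      refine Prod.ext ?_ ?_
      · rw [Prod.fst_sum]
        funext k
        simp [Finset.sum_apply, Pi.single_apply]
      · rw [Prod.snd_sum]
        simp
    rw [h1]
    refine sum_mem fun i _ => ?_
    have h2 : (Pi.single i 1, 0) ∈ M (LMset mkey N') := fun a ha => hX' N' hN' i a ha
    exact nsmul_mem h2 _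
  have hMQ : ∀ w : Fin n → ℕ, (∀ j, d j ∣ w j) → (0, w) ∈ M (LMset mkey N₁) := by
    intro w hw
    choose q hq using hw
    have h1 : ((0 : Fin p → ℕ), w) =
        ∑ j, q j • ((0, Pi.single j (d j)) : (Fin p → ℕ) × (Fin n → ℕ)) := by
      refine Prod.ext ?_ ?_
      · rw [Prod.fst_sum]
        simp
      · rw [Prod.snd_sum]
        funext k
        simp [Finset.sum_apply, Pi.single_apply, hq k, mul_comm]
    rw [h1]
    refine sum_mem fun j _ => ?_
    have h2 : (0, Pi.single j (d j)) ∈ M (LMset mkey N₁) := fun a ha => hQ' j a ha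
    exact nsmul_mem h2 _
  refine cp_of_wqo (rmon_wqo hd B) (rmon_cp d B) ?_
  rintro a b ha ⟨h1, h2, h3⟩
  by_cases hB : kdeg a ≤ B
  · have h4 : b.2.2 = a.2.2 := by
      funext j
      have h5 := (h3 j).2.2
      have h6 : a.2.2 j ≤ kdeg a := Finset.single_le_sum (f := fun j => a.2.2 j)
        (fun _ _ => Nat.zero_le _) (Finset.mem_univ j)
      have h7 := (h3 j).1
      omega
    have h5 : b = shift (b.2.1 - a.2.1, 0) a := by
      refine Prod.ext h1.symm (Prod.ext ?_ ?_)
      · funext i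
        have := h2 i
        simp only [shift, Prod.fst_add, Pi.add_apply, Pi.sub_apply]
        omega
      · simp [shift, h4]
    rw [h5]
    exact hMX N hXN _ a ha
  · have ha' : a ∈ LMset mkey N₁ :=
      LMset_sup_of_bound mkey (deg := kdeg) (fun _ _ => mkey_lt_of_kdeg) hN₂ (by omega)
        (hN ▸ ha)
    have h5 : b = shift (b.2.1 - a.2.1, 0) (shift (0, b.2.2 - a.2.2) a) := by
      refine Prod.ext h1.symm (Prod.ext ?_ ?_)
      · funext i
        have := h2 i
        simp only [shift, Prod.fst_add, Pi.add_apply, Pi.sub_apply, Pi.zero_apply]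
        omega
      · funext j
        have := (h3 j).1
        simp only [shift, Prod.snd_add, Pi.add_apply, Pi.sub_apply, Pi.zero_apply]
        omega
    have hb : b ∈ LMset mkey N₁ := by
      rw [h5]
      refine hMX N₁ hXN₁ _ _ (hMQ _ (fun j => ?_) a ha')
      have h6 := (h3 j).2.1
      rw [Pi.sub_apply]
      exact (Nat.modEq_iff_dvd' (h3 j).1).1 h6
    exact LMset_mono mkey (hN ▸ le_sup_left) hb

end Pool.Agent.H.MP_f5ceca_al.Conv
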