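import Pool.Agent.H.MP_f5ceca_al.Conv.Comp
import Mathlib.LinearAlgebra.Finsupp.LinearCombination
import Mathlib.LinearAlgebra.Quotient.Basic

/-!
Decidability layer for the converse direction of MP_f5ceca_al: constructive fields, coded linear
combinations, recursively enumerable subspaces, and the criterion a recursively enumerable
subspace whose quotient has a recursively enumerable basis is decidable.
-/

namespace Pool.Agent.H.MP_f5ceca_al.Conv

universe u v

/-- A constructive field: its elements are numbered (with repetitions) by the natural numbers in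
such a way that equality is decidable and addition, multiplication, negation are computable. -/
structure CField (K : Type u) [Field K] where
  c : ℕ → K
  surj : Function.Surjective c
  eq_cp : ComputablePred fun p : ℕ × ℕ => c p.1 = c p.2
  add : ℕ → ℕ → ℕ
  add_comp : Computable₂ add
  c_add : ∀ i j, c (add i j) = c i + c j
  mul : ℕ → ℕ → ℕ
  mul_comp : Computable₂ mul
  c_mul : ∀ i j, c (mul i j) = c i * c j
  neg : ℕ → ℕ
  neg_comp : Computable neg
  c_neg : ∀ i, c (neg i) = - c i

namespace CField

variable {K : Type u} [Field K] (κ : CField K)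

/-- A number of zero. -/
noncomputable def zero : ℕ := (κ.surj 0).choose

/-- A number of one. -/
noncomputable def one : ℕ := (κ.surj 1).choose

@[simp] theorem c_zero : κ.c κ.zero = 0 := (κ.surj 0).choose_spec

@[simp] theorem c_one : κ.c κ.one = 1 := (κ.surj 1).choose_spec

theorem eq_zero_cp : ComputablePred fun i : ℕ => κ.c i = 0 := by
  have := cp_comp κ.eq_cp (f := fun i : ℕ => (i, κ.zero))
    (Computable.pair Computable.id (Computable.const _))
  simpa using this

variable {F : Type v} [AddCommGroup F] [Module K F] {G : Type*} [AddCommGroup G] [Module K G]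
variable {J W W' A : Type*}

/-- The value of a coded linear combination. -/
def ev (m : J → F) (P : List (ℕ × J)) : F := (P.map fun p => κ.c p.1 • m p.2).sum

@[simp] theorem ev_nil (m : J → F) : κ.ev m [] = 0 := rfl

@[simp] theorem ev_cons (m : J → F) (p : ℕ × J) (P : List (ℕ × J)) :
    κ.ev m (p :: P) = κ.c p.1 • m p.2 + κ.ev m P := by simp [ev]

@[simp] theorem ev_append (m : J → F) (P Q : List (ℕ × J)) :
    κ.ev m (P ++ Q) = κ.ev m P + κ.ev m Q := by simp [ev]

/-- Multiplication of a coded linear combination by a coded scalar. -/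
def smul (i : ℕ) (P : List (ℕ × J)) : List (ℕ × J) := P.map fun p => (κ.mul i p.1, p.2)

@[simp] theorem ev_smul (m : J → F) (i : ℕ) (P : List (ℕ × J)) :
    κ.ev m (κ.smul i P) = κ.c i • κ.ev m P := by
  induction P with
  | nil => simp [smul]
  | cons p P ih =>
    have : κ.smul i (p :: P) = (κ.mul i p.1, p.2) :: κ.smul i P := rfl
    rw [this, ev_cons, ev_cons, ih, smul_add, κ.c_mul, mul_smul]

/-- Negation of a coded linear combination. -/
def lneg (P : List (ℕ × J)) : List (ℕ × J) := P.map fun p => (κ.neg p.1, p.2)

@[simp] theorem ev_lneg (m : J → F) (P : List (ℕ × J)) : κ.ev m (κ.lneg P) = - κ.ev m P := by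
  induction P with
  | nil => simp [lneg]
  | cons p P ih =>
    have : κ.lneg (p :: P) = (κ.neg p.1, p.2) :: κ.lneg P := rfl
    rw [this, ev_cons, ev_cons, ih, neg_add, κ.c_neg, neg_smul]

/-- Substitution of coded linear combinations for the indices. -/
def bind (e : J → List (ℕ × W)) (Q : List (ℕ × J)) : List (ℕ × W) :=
  Q.flatMap fun q => κ.smul q.1 (e q.2)

theorem ev_bind (m : W → F) (e : J → List (ℕ × W)) (Q : List (ℕ × J)) :
    κ.ev m (κ.bind e Q) = κ.ev (fun j => κ.ev m (e j)) Q := by
  induction Q with
  | nil => simp [bind]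
  | cons q Q ih =>
    have : κ.bind e (q :: Q) = κ.smul q.1 (e q.2) ++ κ.bind e Q := by simp [bind]
    rw [this, ev_append, ih, ev_cons, ev_smul]

theorem ev_linear (φ : F →ₗ[K] G) (m : J → F) (P : List (ℕ × J)) :
    φ (κ.ev m P) = κ.ev (fun j => φ (m j)) P := by
  induction P with
  | nil => simp
  | cons p P ih => simp [ih]

theorem ev_congr {m m' : J → F} {P : List (ℕ × J)} (h : ∀ p ∈ P, m p.2 = m' p.2) :
    κ.ev m P = κ.ev m' P := by
  induction P with
  | nil => simp
  | cons p P ih =>
    rw [ev_cons, ev_cons, h p List.mem_cons_self, ih fun q hq => h q (List.mem_cons_of_mem _ hq)]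

theorem ev_single (m : J → F) (j : J) : κ.ev m [(κ.one, j)] = m j := by simp

theorem ev_mem {m : J → F} {P : List (ℕ × J)} {N : Submodule K F} (h : ∀ p ∈ P, m p.2 ∈ N) :
    κ.ev m P ∈ N := by
  induction P with
  | nil => simp
  | cons p P ih =>
    rw [ev_cons]
    exact N.add_mem (N.smul_mem _ (h p List.mem_cons_self))
      (ih fun q hq => h q (List.mem_cons_of_mem _ hq))

/-- Elements of a span are values of coded linear combinations. -/
theorem mem_span_iff (D : J → Prop) (m : J → F) (x : F) :
    x ∈ Submodule.span K {y | ∃ j, D j ∧ y = m j} ↔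
      ∃ Q : List (ℕ × J), (∀ q ∈ Q, D q.2) ∧ κ.ev m Q = x := by
  constructor
  · intro hx
    induction hx using Submodule.span_induction with
    | mem x hx =>
      obtain ⟨j, hj, rfl⟩ := hx
      exact ⟨[(κ.one, j)], by simpa using hj, by simp⟩
    | zero => exact ⟨[], by simp, by simp⟩
    | add x y _ _ hx hy =>
      obtain ⟨P, hP, rfl⟩ := hx
      obtain ⟨Q, hQ, rfl⟩ := hy
      refine ⟨P ++ Q, ?_, by simp⟩
      intro q hq
      rcases List.mem_append.1 hq with h | h
      · exact hP q h
      · exact hQ q h
    | smul a x _ hx =>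
      obtain ⟨P, hP, rfl⟩ := hx
      obtain ⟨i, rfl⟩ := κ.surj a
      refine ⟨κ.smul i P, ?_, by simp⟩
      intro q hq
      obtain ⟨p, hp, rfl⟩ := List.mem_map.1 hq
      exact hP p hp
  · rintro ⟨Q, hQ, rfl⟩
    exact κ.ev_mem fun q hq => Submodule.subset_span ⟨q.2, hQ q hq, rfl⟩

theorem exists_code (m : J → F) (x : F) (hx : x ∈ Submodule.span K (Set.range m)) :
    ∃ Q : List (ℕ × J), κ.ev m Q = x := by
  have h : Set.range m = {y | ∃ j, True ∧ y = m j} := by
    ext y; simp [Set.mem_range, eq_comm]
  rw [h] at hx
  obtain ⟨Q, -, hQ⟩ := (κ.mem_span_iff _ m x).1 hx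
  exact ⟨Q, hQ⟩

/-- The formal linear combination given by a code. -/
noncomputable def toF (P : List (ℕ × J)) : J →₀ K := κ.ev (fun j => Finsupp.single j 1) P

theorem linComb_toF (m : J → F) (P : List (ℕ × J)) :
    Finsupp.linearCombination K m (κ.toF P) = κ.ev m P := by
  unfold toF
  rw [ev_linear]
  simp

theorem toF_cons (p : ℕ × J) (P : List (ℕ × J)) (j : J) [Decidable (p.2 = j)] :
    κ.toF (p :: P) j = (if p.2 = j then κ.c p.1 else 0) + κ.toF P j := by
  unfold toF
  rw [ev_cons, Finsupp.add_apply]
  classical simp [Finsupp.single_apply]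

theorem toF_support {P : List (ℕ × J)} {j : J} (h : j ∈ (κ.toF P).support) :
    ∃ p ∈ P, p.2 = j := by
  classical
  by_contra hc
  push Not at hc
  rw [Finsupp.mem_support_iff] at h
  apply h
  clear h
  induction P with
  | nil => simp [toF]
  | cons p P ih =>
    rw [toF_cons, if_neg (hc p List.mem_cons_self), zero_add]
    exact ih fun q hq => hc q (List.mem_cons_of_mem _ hq)

section Computability

variable [Primcodable J] [Primcodable W] [Primcodable W'] [Primcodable A]

theorem smul_comp : Computable₂ (κ.smul (J := J)) := by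
  have h : Computable₂ fun (a : ℕ × List (ℕ × J)) (p : ℕ × J) => (κ.mul a.1 p.1, p.2) :=
    Computable.pair
      (κ.mul_comp.comp (Computable.fst.comp Computable.fst) (Computable.fst.comp Computable.snd))
      (Computable.snd.comp Computable.snd)
  exact comp_map (f := fun a : ℕ × List (ℕ × J) => a.2) Computable.snd h

theorem lneg_comp : Computable (κ.lneg (J := J)) := by
  have h : Computable₂ fun (_ : List (ℕ × J)) (p : ℕ × J) => (κ.neg p.1, p.2) :=
    Computable.pair (κ.neg_comp.comp (Computable.fst.comp Computable.snd))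
      (Computable.snd.comp Computable.snd)
  exact comp_map (f := fun a : List (ℕ × J) => a) Computable.id h

/-- `bind` is computable, uniformly in a parameter. -/
theorem bind_comp' {e : A → J → List (ℕ × W)} (he : Computable₂ e) :
    Computable₂ fun (a : A) (Q : List (ℕ × J)) => κ.bind (e a) Q := by
  have h : Computable₂ fun (a : A × List (ℕ × J)) (q : ℕ × J) => κ.smul q.1 (e a.1 q.2) :=
    κ.smul_comp.comp (Computable.fst.comp Computable.snd)
      (he.comp (Computable.fst.comp Computable.fst) (Computable.snd.comp Computable.snd))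
  exact comp_flatMap (f := fun a : A × List (ℕ × J) => a.2) Computable.snd h

theorem bind_comp {e : J → List (ℕ × W)} (he : Computable e) :
    Computable fun Q : List (ℕ × J) => κ.bind e Q := by
  have h : Computable₂ fun (_ : Unit) (j : J) => e j := he.comp Computable.snd
  exact (κ.bind_comp' h).comp (Computable.const ()) Computable.id

/-- The coefficient of an index in a code. -/
noncomputable def coef [DecidableEq J] (P : List (ℕ × J)) (j : J) : ℕ :=
  P.foldl (fun s p => if p.2 = j then κ.add s p.1 else s) κ.zero

omit [Primcodable J] in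
theorem c_coef [DecidableEq J] (P : List (ℕ × J)) (j : J) : κ.c (κ.coef P j) = κ.toF P j := by
  have key : ∀ (P : List (ℕ × J)) (s : ℕ),
      κ.c (P.foldl (fun s p => if p.2 = j then κ.add s p.1 else s) s) = κ.c s + κ.toF P j := by
    intro P
    induction P with
    | nil => intro s; simp [toF]
    | cons p P ih =>
      intro s
      rw [List.foldl_cons, ih]
      rw [toF_cons]
      split_ifs with h
      · rw [κ.c_add, add_assoc]
      · simp
  have := key P κ.zero
  rw [c_zero, zero_add] at this
  exact this

theorem coef_comp [DecidableEq J] : Computable₂ (κ.coef (J := J)) := by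
  have heq : ComputablePred fun p : J × J => p.1 = p.2 := Primrec.eq.computablePred
  have h1 : Computable₂ fun (a : List (ℕ × J) × J) (x : ℕ × (ℕ × J)) =>
      if x.2.2 = a.2 then κ.add x.1 x.2.1 else x.1 := by
    have hd : Computable fun y : (List (ℕ × J) × J) × (ℕ × (ℕ × J)) =>
        decide (y.2.2.2 = y.1.2) :=
      (heq.decide (p := fun p : J × J => p.1 = p.2)).comp
        (Computable.pair (Computable.snd.comp (Computable.snd.comp Computable.snd))
          (Computable.snd.comp Computable.fst))
    have h2 : Computable fun y : (List (ℕ × J) × J) × (ℕ × (ℕ × J)) => κ.add y.2.1 y.2.2.1 :=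
      κ.add_comp.comp (Computable.fst.comp Computable.snd)
        (Computable.fst.comp (Computable.snd.comp Computable.snd))
    have h3 : Computable fun y : (List (ℕ × J) × J) × (ℕ × (ℕ × J)) => y.2.1 :=
      Computable.fst.comp Computable.snd
    refine (Computable.cond hd h2 h3).of_eq fun y => ?_
    simp only [Bool.cond_decide]
  exact comp_foldl (f := fun a : List (ℕ × J) × J => a.1) Computable.fst (Computable.const _) h1

/-- It is decidable whether a code gives the zero formal linear combination. -/
theorem toF_eq_zero_cp : ComputablePred fun P : List (ℕ × J) => κ.toF P = 0 := by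
  classical
  have h1 : ComputablePred fun x : List (ℕ × J) × (ℕ × J) => κ.c (κ.coef x.1 x.2.2) = 0 :=
    cp_comp κ.eq_zero_cp
      (κ.coef_comp.comp Computable.fst (Computable.snd.comp Computable.snd))
  have h2 := cp_forall_mem (p := fun (P : List (ℕ × J)) (q : ℕ × J) => κ.c (κ.coef P q.2) = 0)
    h1 (f := fun P => P) Computable.id
  refine h2.of_eq fun P => ?_
  constructor
  · intro h
    ext j
    by_contra hj
    obtain ⟨p, hp, rfl⟩ := κ.toF_support (Finsupp.mem_support_iff.2 hj)
    have := h p hp
    rw [c_coef] at this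
    exact hj this
  · intro h p _
    rw [c_coef, h]
    rfl

/-- It is decidable whether a coded combination of linearly independent vectors vanishes. -/
theorem ev_eq_zero_cp {m : J → F} (hm : LinearIndependent K m) :
    ComputablePred fun P : List (ℕ × J) => κ.ev m P = 0 := by
  refine (κ.toF_eq_zero_cp (J := J)).of_eq fun P => ?_
  rw [← κ.linComb_toF m P]
  constructor
  · intro h; rw [h]; simp
  · intro h
    exact (linearIndependent_iff.1 hm) _ h

/-- A subspace is recursively enumerable with respect to a numbered family of vectors. -/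
def RESub (m : W → F) (N : Submodule K F) : Prop := REPred fun P : List (ℕ × W) => κ.ev m P ∈ N

/-- **Decidability criterion**: a recursively enumerable subspace is decidable if the quotient has
a recursively enumerable basis. -/
theorem dec_of_re_basis (m : W → F) (N : Submodule K F) (hN : κ.RESub m N)
    (D : J → Prop) (hD : REPred D) (e : J → List (ℕ × W)) (he : Computable e)
    (hli : ∀ f : J →₀ K, (∀ j ∈ f.support, D j) →
      Finsupp.linearCombination K (fun j => κ.ev m (e j)) f ∈ N → f = 0)
    (hsp : ∀ w, m w ∈ N ⊔ Submodule.span K {x | ∃ j, D j ∧ x = κ.ev m (e j)}) :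
    ComputablePred fun P : List (ℕ × W) => κ.ev m P ∈ N := by
  refine re_computable hN ?_
  have hD' : REPred fun x : List (ℕ × W) × List (ℕ × J) => ∀ q ∈ x.2, D q.2 :=
    re_forall_mem (p := fun (_ : List (ℕ × W) × List (ℕ × J)) (q : ℕ × J) => D q.2)
      (re_comp hD (Computable.snd.comp Computable.snd)) Computable.snd
  have hz : REPred fun x : List (ℕ × W) × List (ℕ × J) => κ.toF x.2 ≠ 0 :=
    re_comp (κ.toF_eq_zero_cp (J := J)).not.to_re Computable.snd
  have hm : REPred fun x : List (ℕ × W) × List (ℕ × J) =>
      κ.ev m (x.1 ++ κ.lneg (κ.bind e x.2)) ∈ N :=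
    re_comp (p := fun P : List (ℕ × W) => κ.ev m P ∈ N) hN
      (Computable.list_append.comp Computable.fst
        (κ.lneg_comp.comp ((κ.bind_comp he).comp Computable.snd)))
  have h := re_exists (p := fun (P : List (ℕ × W)) (Q : List (ℕ × J)) =>
    (∀ q ∈ Q, D q.2) ∧ κ.toF Q ≠ 0 ∧ κ.ev m (P ++ κ.lneg (κ.bind e Q)) ∈ N)
    (re_and hD' (re_and hz hm))
  refine h.of_eq fun P => ?_
  constructor
  · rintro ⟨Q, hQ, hQ0, hPQ⟩ hP
    apply hQ0
    apply hli
    · intro j hj
      obtain ⟨p, hp, rfl⟩ := κ.toF_support hj
      exact hQ p hp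
    · rw [linComb_toF, ← ev_bind]
      rw [ev_append, ev_lneg] at hPQ
      have := N.sub_mem hP hPQ
      simpa using this
  · intro hP
    have h1 : κ.ev m P ∈ N ⊔ Submodule.span K {x | ∃ j, D j ∧ x = κ.ev m (e j)} :=
      κ.ev_mem fun p _ => hsp p.2
    obtain ⟨y, hy, s, hs, hys⟩ := Submodule.mem_sup.1 h1
    obtain ⟨Q, hQ, rfl⟩ := (κ.mem_span_iff D (fun j => κ.ev m (e j)) s).1 hs
    refine ⟨Q, hQ, ?_, ?_⟩
    · intro h0
      apply hP
      rw [← hys]
      have : κ.ev (fun j => κ.ev m (e j)) Q = 0 := by rw [← linComb_toF, h0]; simp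
      rw [this, add_zero]
      exact hy
    · rw [ev_append, ev_lneg, ev_bind, ← hys]
      simpa using hy

end Computability

end CField

end Pool.Agent.H.MP_f5ceca_al.Conv
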