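import Pool.Agent.H.MP_f5ceca_al.Conv.IdT
import Pool.Agent.H.MP_f5ceca_al.G.B7
import Pool.Agent.H.MP_f5ceca_al.G.K0

/-!
Recursive enumerability of the ideal of identities `idt` and of finitely generated two-sided
ideals `tspan`, in the language of the folder `G`.
-/

namespace Pool.Agent.H.MP_f5ceca_al.Conv

open Pool.Agent.H.MP_f5ceca_al

universe u

variable {K : Type u} [Field K] (κ : CField K)

theorem idt_re {E B : Type*} [Field E] [Infinite E] [Algebra K E] [Ring B] [Algebra E B]
    [Algebra K B] [IsScalarTower K E B] [Module.Finite E B] (J : Submodule E B) (n : ℕ) :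
    κ.RESub (G.wd K) (G.idt K (J : Set B) n) :=
  re_idt (n := n) κ J

theorem tspan_eq {n : ℕ} (S : Set (FreeAlgebra K (Fin n))) :
    G.tspan K S = idealSub (TwoSidedIdeal.span S) := by
  apply le_antisymm
  · unfold G.tspan
    rw [Submodule.span_le]
    rintro _ ⟨a, b, g, hg, rfl⟩
    exact TwoSidedIdeal.mul_mem_right _ _ _ (TwoSidedIdeal.mul_mem_left _ _ _
      (TwoSidedIdeal.subset_span hg))
  · rw [idealSub_span]
    refine CField.opClosure_le (fun x hx => Submodule.subset_span ⟨1, 1, x, hx, by simp⟩) ?_
    rintro a x hx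
    unfold G.tspan at hx ⊢
    induction hx using Submodule.span_induction with
    | mem x hx =>
      obtain ⟨u, v, g, hg, rfl⟩ := hx
      rcases a with i | i
      · exact Submodule.subset_span ⟨FreeAlgebra.ι K i * u, v, g, hg, by
          simp [lrOp, mul_assoc]⟩
      · exact Submodule.subset_span ⟨u, v * FreeAlgebra.ι K i, g, hg, by
          simp [lrOp, mul_assoc]⟩
    | zero => simp
    | add x y _ _ hx hy => rw [map_add]; exact Submodule.add_mem _ hx hy
    | smul c x _ hx => rw [map_smul]; exact Submodule.smul_mem _ _ hx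

theorem tspan_re {n : ℕ} {S : Set (FreeAlgebra K (Fin n))} (hS : S.Finite) :
    κ.RESub (G.wd K) (G.tspan K S) := by
  have h1 := re_union_list κ (∅ : Set (FreeAlgebra K (Fin n)))
    ((re_const (p := False)).of_eq fun P => by simp) hS
  rw [Set.empty_union] at h1
  rw [tspan_eq]
  exact re_twoSided κ S h1

end Pool.Agent.H.MP_f5ceca_al.Conv
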