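import Pool.Agent.H.MP_f5ceca_al.Conv.Re
import Pool.Agent.H.MP_f5ceca_al.Conv.Cone

/-!
Recursively enumerable bases of layers `U / U'` which are images of free modules over polynomial
rings.
-/

namespace Pool.Agent.H.MP_f5ceca_al.Conv

namespace CField

open Finsupp

universe u v

variable {K : Type u} [Field K] (κ : CField K)
variable {F : Type v} [AddCommGroup F] [Module K F]
variable {W α β : Type*} [Primcodable W] [Primcodable α]

/-- A layer `U / U'` which is the image of `α →₀ K` under a computable map has a recursively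
enumerable basis if the set of leading monomials of the kernel is computable. -/
theorem REB_of_LMset [LinearOrder β] [WellFoundedLT β] {key : α → β}
    (hinj : Function.Injective key) {m : W → F} {U' U : Submodule K F}
    (χ : (α →₀ K) →ₗ[K] F) {e : α → List (ℕ × W)} (he : Computable e)
    (hχ : ∀ a, χ (single a 1) = κ.ev m (e a)) (hle : ∀ a, χ (single a 1) ∈ U)
    (hU : U ≤ U' ⊔ LinearMap.range χ)
    (hLM : ComputablePred fun a => a ∈ LMset key (U'.comap χ)) : κ.REB m U' U := by
  have hlin : ∀ f : α →₀ K, Finsupp.linearCombination K (fun a => κ.ev m (e a)) f = χ f := by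
    intro f
    have h1 : (Finsupp.linearCombination K (fun a => κ.ev m (e a))) = χ := by
      refine Finsupp.lhom_ext' fun a => LinearMap.ext_ring ?_
      simp [hχ]
    rw [h1]
  refine REB.of_prim κ (fun a => a ∉ LMset key (U'.comap χ)) e hLM.not.to_re he ?_ ?_ ?_
  · intro a _
    rw [← hχ]
    exact hle a
  · intro f hf hN
    rw [hlin] at hN
    refine std_indep key (U'.comap χ) hN fun a ha => hf a (Finsupp.mem_support_iff.2 ha)
  · refine hU.trans (sup_le le_sup_left ?_)
    rintro _ ⟨g, rfl⟩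
    have h1 : g ∈ U'.comap χ ⊔
        Submodule.span K {x | ∃ b, b ∉ LMset key (U'.comap χ) ∧ x = single b (1 : K)} := by
      rw [← Finsupp.sum_single g, Finsupp.sum]
      refine Submodule.sum_mem _ fun a _ => ?_
      have h2 : single a (g a) = g a • single a (1 : K) := by
        rw [Finsupp.smul_single, smul_eq_mul, mul_one]
      rw [h2]
      exact Submodule.smul_mem _ _ (std_span key hinj _ a)
    obtain ⟨x, hx, y, hy, rfl⟩ := Submodule.mem_sup.1 h1
    rw [map_add]
    refine Submodule.add_mem _ (Submodule.mem_sup_left hx) (Submodule.mem_sup_right ?_)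
    have h3 : Submodule.span K {x | ∃ b, b ∉ LMset key (U'.comap χ) ∧ x = single b (1 : K)} ≤
        (Submodule.span K {x | ∃ j, j ∉ LMset key (U'.comap χ) ∧ x = κ.ev m (e j)}).comap χ := by
      rw [Submodule.span_le]
      rintro _ ⟨b, hb, rfl⟩
      exact Submodule.subset_span ⟨b, hb, hχ b⟩
    exact h3 hy

/-- The layer theorem in terms of operators on `Mon t p n →₀ K`. -/
theorem REB_mon {t p n : ℕ} {m : W → F} {U' U : Submodule K F}
    (χ : (Mon t p n →₀ K) →ₗ[K] F) {e : Mon t p n → List (ℕ × W)} (he : Computable e)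
    (hχ : ∀ a, χ (single a 1) = κ.ev m (e a)) (hle : ∀ a, χ (single a 1) ∈ U)
    (hU : U ≤ U' ⊔ LinearMap.range χ)
    (N₁ N₂ : Submodule K (Mon t p n →₀ K)) (d : Fin n → ℕ) (hd : ∀ j, 0 < d j)
    (B : ℕ) (X : Fin p → (Mon t p n →₀ K) →ₗ[K] (Mon t p n →₀ K))
    (Q : Fin n → (Mon t p n →₀ K) →ₗ[K] (Mon t p n →₀ K))
    (hX : ∀ i a, X i (single a 1) = single (shift (Pi.single i 1, 0) a) 1)
    (hQ : ∀ j a, Q j (single a 1) - single (shift (0, Pi.single j (d j)) a) 1 ∈
      supported K K {b | kdeg b < kdeg a + d j})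
    (hN : U'.comap χ = N₁ ⊔ N₂) (hXN : ∀ i, ∀ f, χ f ∈ U' → χ (X i f) ∈ U')
    (hXN₁ : ∀ i, ∀ f ∈ N₁, X i f ∈ N₁)
    (hQN₁ : ∀ j, ∀ f ∈ N₁, Q j f ∈ N₁) (hN₂ : N₂ ≤ supported K K {a | kdeg a ≤ B}) :
    κ.REB m U' U :=
  κ.REB_of_LMset mkey_injective χ he hχ hle hU
    (cone_cp (U'.comap χ) N₁ N₂ d hd B X Q hX hQ hN hXN hXN₁ hQN₁ hN₂)

end CField

/-! ### Polynomial form -/

section Poly

open MvPolynomial

variable {K : Type*} [Field K] {t p n : ℕ}

/-- The exponent vector of the pair of outer and inner exponents. -/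
noncomputable def expo (v : (Fin p → ℕ) × (Fin n → ℕ)) : (Fin p ⊕ Fin n) →₀ ℕ :=
  Finsupp.equivFunOnFinite.symm (Sum.elim v.1 v.2)

@[simp] theorem expo_inl (v : (Fin p → ℕ) × (Fin n → ℕ)) (i : Fin p) :
    expo v (Sum.inl i) = v.1 i := rfl

@[simp] theorem expo_inr (v : (Fin p → ℕ) × (Fin n → ℕ)) (j : Fin n) :
    expo v (Sum.inr j) = v.2 j := rfl

theorem expo_add (v w : (Fin p → ℕ) × (Fin n → ℕ)) : expo (v + w) = expo v + expo w := by
  ext (i | j) <;> simp

/-- Exponent vectors are pairs of outer and inner exponents. -/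
noncomputable def expoEquiv : (Fin p → ℕ) × (Fin n → ℕ) ≃ ((Fin p ⊕ Fin n) →₀ ℕ) where
  toFun := expo
  invFun s := (fun i => s (Sum.inl i), fun j => s (Sum.inr j))
  left_inv v := by simp
  right_inv s := by ext (i | j) <;> simp

/-- The monomial vector with index `a`. -/
noncomputable def mono (K : Type*) [Field K] (a : Mon t p n) :
    Fin t → MvPolynomial (Fin p ⊕ Fin n) K :=
  Pi.single a.1 (monomial (expo a.2) 1)

/-- The free module of rank `t` over the polynomial ring, as a space with basis `Mon t p n`. -/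
noncomputable def monBasis (K : Type*) [Field K] (t p n : ℕ) :
    Module.Basis (Mon t p n) K (Fin t → MvPolynomial (Fin p ⊕ Fin n) K) :=
  (Pi.basis fun _ : Fin t => basisMonomials (Fin p ⊕ Fin n) K).reindex
    ((Equiv.sigmaEquivProd (Fin t) ((Fin p ⊕ Fin n) →₀ ℕ)).trans
      (Equiv.prodCongr (Equiv.refl _) expoEquiv.symm))

theorem monBasis_apply (a : Mon t p n) : monBasis K t p n a = mono K a := by
  simp only [monBasis, Module.Basis.reindex_apply]
  have : ((Equiv.sigmaEquivProd (Fin t) ((Fin p ⊕ Fin n) →₀ ℕ)).trans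
      (Equiv.prodCongr (Equiv.refl _) (expoEquiv (p := p) (n := n)).symm)).symm a =
      ⟨a.1, expo a.2⟩ := rfl
  rw [this, Pi.basis_apply]
  simp [mono]

/-- The isomorphism between the two models of the free module. -/
noncomputable def monEquiv (K : Type*) [Field K] (t p n : ℕ) :
    (Mon t p n →₀ K) ≃ₗ[K] (Fin t → MvPolynomial (Fin p ⊕ Fin n) K) :=
  (monBasis K t p n).repr.symm

@[simp] theorem monEquiv_single (a : Mon t p n) :
    monEquiv K t p n (Finsupp.single a 1) = mono K a := by
  simp [monEquiv, monBasis_apply]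

theorem monomial_smul_mono (v : (Fin p → ℕ) × (Fin n → ℕ)) (a : Mon t p n) :
    (monomial (expo v) (1 : K)) • mono K a = mono K (shift v a) := by
  funext i
  simp only [mono, shift, Pi.smul_apply, smul_eq_mul]
  by_cases h : i = a.1
  · subst h
    rw [Pi.single_eq_same, Pi.single_eq_same, monomial_mul, one_mul, expo_add, add_comm]
  · rw [Pi.single_eq_of_ne h, Pi.single_eq_of_ne h, mul_zero]

/-- Multiplication by a polynomial, in the model with basis `Mon t p n`. -/
noncomputable def mulOp (t : ℕ) (r : MvPolynomial (Fin p ⊕ Fin n) K) :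
    (Mon t p n →₀ K) →ₗ[K] (Mon t p n →₀ K) :=
  (monEquiv K t p n).symm.toLinearMap ∘ₗ
    (LinearMap.lsmul (MvPolynomial (Fin p ⊕ Fin n) K)
      (Fin t → MvPolynomial (Fin p ⊕ Fin n) K) r).restrictScalars K ∘ₗ
    (monEquiv K t p n).toLinearMap

theorem mulOp_apply (r : MvPolynomial (Fin p ⊕ Fin n) K) (f : Mon t p n →₀ K) :
    mulOp t r f = (monEquiv K t p n).symm (r • monEquiv K t p n f) := rfl

theorem monEquiv_mulOp (r : MvPolynomial (Fin p ⊕ Fin n) K) (f : Mon t p n →₀ K) :
    monEquiv K t p n (mulOp t r f) = r • monEquiv K t p n f := by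
  rw [mulOp_apply, LinearEquiv.apply_symm_apply]

theorem mulOp_monomial (s : (Fin p ⊕ Fin n) →₀ ℕ) (a : Mon t p n) :
    mulOp t (monomial s (1 : K)) (Finsupp.single a 1) =
      Finsupp.single (shift (expoEquiv.symm s) a) 1 := by
  apply (monEquiv K t p n).injective
  rw [monEquiv_mulOp, monEquiv_single, monEquiv_single]
  have : s = expo ((expoEquiv (p := p) (n := n)).symm s) :=
    ((expoEquiv (p := p) (n := n)).apply_symm_apply s).symm
  conv_lhs => rw [this]
  rw [monomial_smul_mono]

/-- The inner degree of an exponent vector. -/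
def innerDeg (s : (Fin p ⊕ Fin n) →₀ ℕ) : ℕ := ∑ j, s (Sum.inr j)

theorem mulOp_add (r r' : MvPolynomial (Fin p ⊕ Fin n) K) :
    mulOp t (r + r') = mulOp t r + mulOp t r' := by
  ext1 a
  apply LinearMap.ext
  intro c
  simp only [LinearMap.comp_apply, mulOp_apply, add_smul, map_add, LinearMap.add_apply]

theorem mulOp_smul (c : K) (r : MvPolynomial (Fin p ⊕ Fin n) K) :
    mulOp t (c • r) = c • mulOp t r := by
  ext1 a
  apply LinearMap.ext
  intro c
  simp only [LinearMap.comp_apply, mulOp_apply, smul_assoc, map_smul, LinearMap.smul_apply]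

theorem mulOp_sub (r r' : MvPolynomial (Fin p ⊕ Fin n) K) :
    mulOp t (r - r') = mulOp t r - mulOp t r' := by
  ext1 a
  apply LinearMap.ext
  intro c
  simp only [LinearMap.comp_apply, mulOp_apply, sub_smul, map_sub, LinearMap.sub_apply]

theorem mulOp_sum {ι : Type*} (s : Finset ι) (r : ι → MvPolynomial (Fin p ⊕ Fin n) K) :
    mulOp t (∑ i ∈ s, r i) = ∑ i ∈ s, mulOp t (r i) := by
  classical
  induction s using Finset.induction_on with
  | empty =>
    ext1 a
    apply LinearMap.ext
    intro c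
    simp [mulOp_apply]
  | insert i s hi ih => rw [Finset.sum_insert hi, Finset.sum_insert hi, mulOp_add, ih]

theorem mulOp_single_mem (r : MvPolynomial (Fin p ⊕ Fin n) K) (a : Mon t p n) :
    mulOp t r (Finsupp.single a 1) ∈
      Finsupp.supported K K {b | ∃ s ∈ r.support, kdeg b = kdeg a + innerDeg s} := by
  have h1 : r = ∑ s ∈ r.support, coeff s r • monomial s (1 : K) := by
    conv_lhs => rw [r.as_sum]
    refine Finset.sum_congr rfl fun s _ => ?_
    rw [smul_monomial, smul_eq_mul, mul_one]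
  have h2 : mulOp t r (Finsupp.single a 1) =
      ∑ s ∈ r.support, coeff s r • mulOp t (monomial s (1 : K)) (Finsupp.single a 1) := by
    conv_lhs => rw [h1]
    rw [mulOp_sum, LinearMap.sum_apply]
    refine Finset.sum_congr rfl fun s _ => ?_
    rw [mulOp_smul, LinearMap.smul_apply]
  rw [h2]
  refine Submodule.sum_mem _ fun s hs => Submodule.smul_mem _ _ ?_
  rw [mulOp_monomial]
  refine Finsupp.single_mem_supported K _ ⟨s, hs, ?_⟩
  rw [kdeg_shift]
  rfl

namespace CField

universe u v

variable {K : Type u} [Field K] (κ : CField K)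
variable {F : Type v} [AddCommGroup F] [Module K F]
variable {W : Type*} [Primcodable W]

/-- **Layer theorem.** Let `V = K[outer, inner]^t` and let `χ : V → F` be a computable linear map
with `U = U' + χ(V)`. Suppose that the kernel `{x | χ x ∈ U'}` is the sum of a subspace `N₁` which
is stable under multiplication by the outer variables and by polynomials `q j` which are monic in
the `j`-th inner variable (up to terms of smaller inner degree), and of a finitely generated
`K[outer]`-submodule. Then `U / U'` has a recursively enumerable basis. -/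
theorem REB_poly {t p n : ℕ} {m : W → F} {U' U : Submodule K F}
    (χ : (Fin t → MvPolynomial (Fin p ⊕ Fin n) K) →ₗ[K] F) {e : Mon t p n → List (ℕ × W)}
    (he : Computable e) (hχ : ∀ a, χ (mono K a) = κ.ev m (e a)) (hle : ∀ a, χ (mono K a) ∈ U)
    (hU : U ≤ U' ⊔ LinearMap.range χ)
    (N₁ : Submodule K (Fin t → MvPolynomial (Fin p ⊕ Fin n) K))
    (q : Fin n → MvPolynomial (Fin p ⊕ Fin n) K) (d : Fin n → ℕ) (hd : ∀ j, 0 < d j)
    (hq : ∀ j, ∀ s ∈ (q j - X (Sum.inr j) ^ d j).support, innerDeg s < d j)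
    (hN₁X : ∀ i, ∀ x ∈ N₁, (X (Sum.inl i) : MvPolynomial (Fin p ⊕ Fin n) K) • x ∈ N₁)
    (hN₁q : ∀ j, ∀ x ∈ N₁, q j • x ∈ N₁)
    (G : Set (Fin t → MvPolynomial (Fin p ⊕ Fin n) K)) (hG : G.Finite)
    (hN : U'.comap χ = N₁ ⊔ Submodule.span K
      {y | ∃ r : MvPolynomial (Fin p) K, ∃ g ∈ G, y = rename (Sum.inl : Fin p → Fin p ⊕ Fin n) r • g}) :
    κ.REB m U' U := by
  classical
  set E := monEquiv K t p n with hE
  set N₂ : Submodule K (Fin t → MvPolynomial (Fin p ⊕ Fin n) K) := Submodule.span K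
      {y | ∃ r : MvPolynomial (Fin p) K, ∃ g ∈ G, y = rename (Sum.inl : Fin p → Fin p ⊕ Fin n) r • g} with hN₂
  -- a bound for the inner degrees
  obtain ⟨B, hB⟩ : ∃ B : ℕ, ∀ g ∈ G, ∀ b ∈ (E.symm g).support, kdeg b ≤ B := by
    refine ⟨hG.toFinset.sup fun g => (E.symm g).support.sup kdeg, fun g hg b hb => ?_⟩
    exact (Finset.le_sup (f := kdeg) hb).trans
      (Finset.le_sup (f := fun g => (E.symm g).support.sup kdeg) (hG.mem_toFinset.2 hg))
  have hX2 : ∀ i, ∀ x ∈ N₂, (X (Sum.inl i) : MvPolynomial (Fin p ⊕ Fin n) K) • x ∈ N₂ := by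
    intro i x hx
    have : N₂ ≤ N₂.comap ((LinearMap.lsmul (MvPolynomial (Fin p ⊕ Fin n) K)
        (Fin t → MvPolynomial (Fin p ⊕ Fin n) K) (X (Sum.inl i))).restrictScalars K) := by
      rw [hN₂, Submodule.span_le]
      rintro _ ⟨r, g, hg, rfl⟩
      refine Submodule.subset_span ⟨X i * r, g, hg, ?_⟩
      rw [map_mul, rename_X, mul_smul]
      rfl
    exact this hx
  refine κ.REB_mon (χ ∘ₗ E.toLinearMap) he ?_ ?_ ?_ (N₁.comap E.toLinearMap)
    (N₂.comap E.toLinearMap) d hd B (fun i => mulOp t (X (Sum.inl i))) (fun j => mulOp t (q j))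
    ?_ ?_ ?_ ?_ ?_ ?_ ?_
  · intro a
    rw [← hχ]
    simp [hE]
  · intro a
    have := hle a
    simpa [hE] using this
  · have : LinearMap.range (χ ∘ₗ E.toLinearMap) = LinearMap.range χ := by
      rw [LinearMap.range_comp, LinearEquiv.range, Submodule.map_top]
    rw [this]
    exact hU
  · intro i a
    have h1 : (X (Sum.inl i) : MvPolynomial (Fin p ⊕ Fin n) K) =
        monomial (Finsupp.single (Sum.inl i) 1) 1 := rfl
    rw [h1, mulOp_monomial]
    congr 1
    refine Prod.ext rfl ?_
    simp only [shift, expoEquiv, Equiv.coe_fn_symm_mk]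
    congr 1
    refine Prod.ext ?_ ?_
    · funext k
      simp [Finsupp.single_apply, Pi.single_apply, eq_comm]
    · funext k
      simp
  · intro j a
    have h1 : (Finsupp.single (shift (0, Pi.single j (d j)) a) 1 : Mon t p n →₀ K) =
        mulOp t (X (Sum.inr j) ^ d j) (Finsupp.single a 1) := by
      rw [X_pow_eq_monomial, mulOp_monomial]
      congr 1
      refine Prod.ext rfl ?_
      simp only [shift, expoEquiv, Equiv.coe_fn_symm_mk]
      congr 1
      refine Prod.ext ?_ ?_
      · funext k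
        simp
      · funext k
        simp [Finsupp.single_apply, Pi.single_apply, eq_comm]
    rw [h1, ← LinearMap.sub_apply, ← mulOp_sub]
    refine Finsupp.supported_mono ?_ (mulOp_single_mem _ a)
    rintro b ⟨s, hs, hb⟩
    have := hq j s hs
    change kdeg b < kdeg a + d j
    omega
  · rw [Submodule.comap_comp, hN]
    have h1 : ∀ M : Submodule K (Fin t → MvPolynomial (Fin p ⊕ Fin n) K),
        M.comap E.toLinearMap = M.map E.symm.toLinearMap := fun M =>
      Submodule.comap_equiv_eq_map_symm E M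
    rw [h1, h1, h1, Submodule.map_sup]
  · intro i f hf
    have h1 : E f ∈ N₁ ⊔ N₂ := hN ▸ hf
    obtain ⟨x, hx, y, hy, hxy⟩ := Submodule.mem_sup.1 h1
    have h2 : (X (Sum.inl i) : MvPolynomial (Fin p ⊕ Fin n) K) • E f ∈ N₁ ⊔ N₂ := by
      rw [← hxy, smul_add]
      exact Submodule.add_mem _ (Submodule.mem_sup_left (hN₁X i x hx))
        (Submodule.mem_sup_right (hX2 i y hy))
    have h3 : E (mulOp t (X (Sum.inl i)) f) =
        (X (Sum.inl i) : MvPolynomial (Fin p ⊕ Fin n) K) • E f := monEquiv_mulOp _ _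
    change χ (E (mulOp t (X (Sum.inl i)) f)) ∈ U'
    rw [h3]
    have h4 : (X (Sum.inl i) : MvPolynomial (Fin p ⊕ Fin n) K) • E f ∈ U'.comap χ := hN ▸ h2
    exact h4
  · intro i f hf
    have h3 : E (mulOp t (X (Sum.inl i)) f) =
        (X (Sum.inl i) : MvPolynomial (Fin p ⊕ Fin n) K) • E f := monEquiv_mulOp _ _
    change E (mulOp t (X (Sum.inl i)) f) ∈ N₁
    rw [h3]
    exact hN₁X i _ hf
  · intro j f hf
    have h3 : E (mulOp t (q j) f) = q j • E f := monEquiv_mulOp _ _
    change E (mulOp t (q j) f) ∈ N₁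
    rw [h3]
    exact hN₁q j _ hf
  · have h1 : N₂ ≤ (Finsupp.supported K K {a : Mon t p n | kdeg a ≤ B}).comap
        E.symm.toLinearMap := by
      rw [hN₂, Submodule.span_le]
      rintro _ ⟨r, g, hg, rfl⟩
      rw [SetLike.mem_coe, Submodule.mem_comap]
      have h2 : E.symm.toLinearMap (rename (Sum.inl : Fin p → Fin p ⊕ Fin n) r • g) =
          mulOp t (rename (Sum.inl : Fin p → Fin p ⊕ Fin n) r) (E.symm g) := by
        rw [mulOp_apply, ← hE, LinearEquiv.apply_symm_apply]
        rfl
      rw [h2]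
      have h3 : mulOp t (rename (Sum.inl : Fin p → Fin p ⊕ Fin n) r) (E.symm g) =
          ∑ b ∈ (E.symm g).support,
            (E.symm g b) • mulOp t (rename (Sum.inl : Fin p → Fin p ⊕ Fin n) r) (Finsupp.single b 1) := by
        conv_lhs => rw [← Finsupp.sum_single (E.symm g)]
        rw [Finsupp.sum, map_sum]
        refine Finset.sum_congr rfl fun b _ => ?_
        rw [← map_smul, Finsupp.smul_single, smul_eq_mul, mul_one]
      rw [h3]
      refine Submodule.sum_mem _ fun b hb => Submodule.smul_mem _ _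
        (Finsupp.supported_mono ?_ (mulOp_single_mem _ b))
      rintro c ⟨s, hs, hc⟩
      have h4 : innerDeg s = 0 := by
        have hs' : s ∈ (rename (Sum.inl : Fin p → Fin p ⊕ Fin n) r).support := hs
        rw [support_rename_of_injective Sum.inl_injective] at hs'
        obtain ⟨s', -, rfl⟩ := Finset.mem_image.1 hs'
        unfold innerDeg
        refine Finset.sum_eq_zero fun j _ => ?_
        exact Finsupp.mapDomain_of_notMem_range _ _ (by simp)
      have h5 := hB g hg b hb
      change kdeg c ≤ B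
      omega
    intro f hf
    have := h1 hf
    simpa using this

end CField

end Poly

end Pool.Agent.H.MP_f5ceca_al.Conv
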