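import Pool.Agent.H.MP_f5ceca_al.Conv.Dec

/-!
Recursively enumerable subspaces: spans, sums, images, preimages, closure under computable
operators; and recursively enumerable bases of quotients `U / N` (`REB N U`).
-/

namespace Pool.Agent.H.MP_f5ceca_al.Conv

namespace CField

universe u v

variable {K : Type u} [Field K] (κ : CField K)
variable {F : Type v} [AddCommGroup F] [Module K F] {G : Type*} [AddCommGroup G] [Module K G]
variable {J W W' A : Type*} [Primcodable J] [Primcodable W] [Primcodable W'] [Primcodable A]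

theorem sub_comp : Computable₂ fun P Q : List (ℕ × W) => P ++ κ.lneg Q :=
  Computable.list_append.comp Computable.fst (κ.lneg_comp.comp Computable.snd)

/-- Equality of values of codes is recursively enumerable if vanishing is. -/
theorem re_eq {m : W → F} (hz : REPred fun P : List (ℕ × W) => κ.ev m P = 0) :
    REPred fun x : List (ℕ × W) × List (ℕ × W) => κ.ev m x.1 = κ.ev m x.2 := by
  refine (re_comp hz (κ.sub_comp (W := W))).of_eq fun x => ?_
  rw [ev_append, ev_lneg, add_neg_eq_zero]

/-- The span of a recursively enumerable family is recursively enumerable. -/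
theorem re_span {m : W → F} (hz : REPred fun P : List (ℕ × W) => κ.ev m P = 0)
    {D : J → Prop} (hD : REPred D) {e : J → List (ℕ × W)} (he : Computable e) :
    κ.RESub m (Submodule.span K {x | ∃ j, D j ∧ x = κ.ev m (e j)}) := by
  have hD' : REPred fun x : List (ℕ × W) × List (ℕ × J) => ∀ q ∈ x.2, D q.2 :=
    re_forall_mem (p := fun (_ : List (ℕ × W) × List (ℕ × J)) (q : ℕ × J) => D q.2)
      (re_comp hD (Computable.snd.comp Computable.snd)) Computable.snd
  have hm : REPred fun x : List (ℕ × W) × List (ℕ × J) =>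
      κ.ev m (κ.bind e x.2) = κ.ev m x.1 :=
    re_comp (κ.re_eq hz) (Computable.pair ((κ.bind_comp he).comp Computable.snd) Computable.fst)
  have h := re_exists (p := fun (P : List (ℕ × W)) (Q : List (ℕ × J)) =>
    (∀ q ∈ Q, D q.2) ∧ κ.ev m (κ.bind e Q) = κ.ev m P) (re_and hD' hm)
  refine h.of_eq fun P => ?_
  rw [κ.mem_span_iff D (fun j => κ.ev m (e j))]
  simp only [ev_bind]

/-- Sums of recursively enumerable subspaces are recursively enumerable. -/
theorem re_sup {m : W → F} {N₁ N₂ : Submodule K F} (h₁ : κ.RESub m N₁) (h₂ : κ.RESub m N₂)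
    (hle : N₁ ≤ Submodule.span K (Set.range m)) : κ.RESub m (N₁ ⊔ N₂) := by
  have h1 : REPred fun x : List (ℕ × W) × List (ℕ × W) => κ.ev m x.2 ∈ N₁ :=
    re_comp h₁ Computable.snd
  have h2 : REPred fun x : List (ℕ × W) × List (ℕ × W) => κ.ev m (x.1 ++ κ.lneg x.2) ∈ N₂ :=
    re_comp h₂ (κ.sub_comp (W := W))
  refine (re_exists (p := fun (P Q : List (ℕ × W)) =>
    κ.ev m Q ∈ N₁ ∧ κ.ev m (P ++ κ.lneg Q) ∈ N₂) (re_and h1 h2)).of_eq fun P => ?_
  rw [Submodule.mem_sup]
  constructor
  · rintro ⟨Q, hQ, hPQ⟩
    refine ⟨_, hQ, _, hPQ, by simp⟩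
  · rintro ⟨y, hy, z, hz, hyz⟩
    obtain ⟨Q, rfl⟩ := κ.exists_code m y (hle hy)
    refine ⟨Q, hy, ?_⟩
    rw [ev_append, ev_lneg, ← hyz]
    simpa using hz

/-- Preimages of recursively enumerable subspaces under computable maps. -/
theorem re_comap {m : W → F} {m' : W' → G} {N : Submodule K G} (hN : κ.RESub m' N)
    (φ : F →ₗ[K] G) {e : W → List (ℕ × W')} (he : Computable e)
    (hφ : ∀ w, φ (m w) = κ.ev m' (e w)) : κ.RESub m (N.comap φ) := by
  refine (re_comp hN (κ.bind_comp he)).of_eq fun P => ?_
  rw [Submodule.mem_comap, ev_linear, ev_bind]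
  simp only [hφ]

/-- Images of recursively enumerable subspaces under computable maps. -/
theorem re_map {m : W → F} {m' : W' → G} {N : Submodule K F} (hN : κ.RESub m N)
    (hle : N ≤ Submodule.span K (Set.range m))
    (hz : REPred fun P : List (ℕ × W') => κ.ev m' P = 0)
    (φ : F →ₗ[K] G) {e : W → List (ℕ × W')} (he : Computable e)
    (hφ : ∀ w, φ (m w) = κ.ev m' (e w)) : κ.RESub m' (N.map φ) := by
  have h1 : REPred fun x : List (ℕ × W') × List (ℕ × W) => κ.ev m x.2 ∈ N :=
    re_comp hN Computable.snd
  have h2 : REPred fun x : List (ℕ × W') × List (ℕ × W) =>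
      κ.ev m' (κ.bind e x.2) = κ.ev m' x.1 :=
    re_comp (κ.re_eq hz) (Computable.pair ((κ.bind_comp he).comp Computable.snd) Computable.fst)
  refine (re_exists (p := fun (P : List (ℕ × W')) (Q : List (ℕ × W)) =>
    κ.ev m Q ∈ N ∧ κ.ev m' (κ.bind e Q) = κ.ev m' P) (re_and h1 h2)).of_eq fun P => ?_
  rw [Submodule.mem_map]
  constructor
  · rintro ⟨Q, hQ, hPQ⟩
    refine ⟨_, hQ, ?_⟩
    rw [← hPQ, ev_linear, ev_bind]
    simp only [hφ]
  · rintro ⟨y, hy, hyP⟩
    obtain ⟨Q, rfl⟩ := κ.exists_code m y (hle hy)
    refine ⟨Q, hy, ?_⟩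
    rw [← hyP, ev_linear, ev_bind]
    simp only [hφ]

/-- The smallest subspace which contains `S` and is stable under the operators `op a`. -/
def opClosure (op : A → F →ₗ[K] F) (S : Set F) : Submodule K F :=
  sInf {N | S ⊆ N ∧ ∀ a, ∀ x ∈ N, op a x ∈ N}

omit [Primcodable A] in
theorem subset_opClosure (op : A → F →ₗ[K] F) (S : Set F) : S ⊆ opClosure op S := by
  intro x hx
  simp only [opClosure, Submodule.coe_sInf, Set.mem_iInter, SetLike.mem_coe]
  exact fun N hN => hN.1 hx

omit [Primcodable A] in
theorem op_mem_opClosure (op : A → F →ₗ[K] F) (S : Set F) (a : A) {x : F}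
    (hx : x ∈ opClosure op S) : op a x ∈ opClosure op S := by
  simp only [opClosure, Submodule.mem_sInf] at hx ⊢
  exact fun N hN => hN.2 a x (hx N hN)

omit [Primcodable A] in
theorem opClosure_le {op : A → F →ₗ[K] F} {S : Set F} {N : Submodule K F} (h1 : S ⊆ N)
    (h2 : ∀ a, ∀ x ∈ N, op a x ∈ N) : opClosure op S ≤ N := sInf_le ⟨h1, h2⟩

omit [Primcodable A] in
theorem opClosure_eq_span (op : A → F →ₗ[K] F) (S : Set F) :
    opClosure op S =
      Submodule.span K {x | ∃ (as : List A) (s : F), s ∈ S ∧
        x = as.foldl (fun y a => op a y) s} := by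
  apply le_antisymm
  · refine opClosure_le (fun s hs => Submodule.subset_span ⟨[], s, hs, rfl⟩) fun a x hx => ?_
    induction hx using Submodule.span_induction with
    | mem x hx =>
      obtain ⟨as, s, hs, rfl⟩ := hx
      exact Submodule.subset_span ⟨as ++ [a], s, hs, by simp⟩
    | zero => simp
    | add x y _ _ hx hy => rw [map_add]; exact Submodule.add_mem _ hx hy
    | smul c x _ hx => rw [map_smul]; exact Submodule.smul_mem _ _ hx
  · rw [Submodule.span_le]
    rintro x ⟨as, s, hs, rfl⟩
    have key : ∀ (as : List A) (y : F), y ∈ opClosure op S →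
        as.foldl (fun y a => op a y) y ∈ opClosure op S := by
      intro as
      induction as with
      | nil => intro y hy; exact hy
      | cons a as ih => intro y hy; exact ih _ (op_mem_opClosure op S a hy)
    exact key as s (subset_opClosure op S hs)

/-- The closure of a recursively enumerable family under a uniformly computable family of
operators is recursively enumerable. -/
theorem re_opClosure {m : W → F} (hz : REPred fun P : List (ℕ × W) => κ.ev m P = 0)
    {D : J → Prop} (hD : REPred D) {e : J → List (ℕ × W)} (he : Computable e)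
    (op : A → F →ₗ[K] F) {o : A → W → List (ℕ × W)} (ho : Computable₂ o)
    (hop : ∀ a w, op a (m w) = κ.ev m (o a w)) :
    κ.RESub m (opClosure op {x | ∃ j, D j ∧ x = κ.ev m (e j)}) := by
  let e' : List A × J → List (ℕ × W) := fun y =>
    y.1.foldl (fun P a => κ.bind (o a) P) (e y.2)
  have he' : Computable e' := by
    have h1 : Computable₂ fun (_ : List A × J) (x : List (ℕ × W) × A) => κ.bind (o x.2) x.1 :=
      (κ.bind_comp' ho).comp (Computable.snd.comp Computable.snd)
        (Computable.fst.comp Computable.snd)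
    exact comp_foldl (f := fun y : List A × J => y.1) Computable.fst
      (he.comp Computable.snd) h1
  have hev : ∀ (as : List A) (P : List (ℕ × W)),
      κ.ev m (as.foldl (fun P a => κ.bind (o a) P) P) =
        as.foldl (fun y a => op a y) (κ.ev m P) := by
    intro as
    induction as with
    | nil => intro P; rfl
    | cons a as ih =>
      intro P
      rw [List.foldl_cons, ih, List.foldl_cons, ev_linear, ev_bind]
      simp only [hop]
  have h := κ.re_span hz (D := fun y : List A × J => D y.2) (re_comp hD Computable.snd) he'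
  refine h.of_eq fun P => ?_
  have hset : {x | ∃ j : List A × J, D j.2 ∧ x = κ.ev m (e' j)} =
      {x | ∃ (as : List A) (s : F), s ∈ {x | ∃ j, D j ∧ x = κ.ev m (e j)} ∧
        x = as.foldl (fun y a => op a y) s} := by
    ext x
    constructor
    · rintro ⟨⟨as, j⟩, hj, rfl⟩
      exact ⟨as, _, ⟨j, hj, rfl⟩, hev as _⟩
    · rintro ⟨as, s, ⟨j, hj, rfl⟩, rfl⟩
      exact ⟨(as, j), hj, (hev as _).symm⟩
  rw [hset, ← opClosure_eq_span]

/-! ### Recursively enumerable bases of quotients -/

/-- The quotient `U / N` has a recursively enumerable basis. -/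
def REB (m : W → F) (N U : Submodule K F) : Prop :=
  ∃ (D : ℕ → Prop) (e : ℕ → List (ℕ × W)), REPred D ∧ Computable e ∧
    (∀ j, D j → κ.ev m (e j) ∈ U) ∧
    (∀ f : ℕ →₀ K, (∀ j ∈ f.support, D j) →
      Finsupp.linearCombination K (fun j => κ.ev m (e j)) f ∈ N → f = 0) ∧
    U ≤ N ⊔ Submodule.span K {x | ∃ j, D j ∧ x = κ.ev m (e j)}

/-- Recursively enumerable bases indexed by an arbitrary `Primcodable` type. -/
theorem REB.of_prim {m : W → F} {N U : Submodule K F} (D : J → Prop) (e : J → List (ℕ × W))
    (hD : REPred D) (he : Computable e) (hU : ∀ j, D j → κ.ev m (e j) ∈ U)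
    (hli : ∀ f : J →₀ K, (∀ j ∈ f.support, D j) →
      Finsupp.linearCombination K (fun j => κ.ev m (e j)) f ∈ N → f = 0)
    (hsp : U ≤ N ⊔ Submodule.span K {x | ∃ j, D j ∧ x = κ.ev m (e j)}) : κ.REB m N U := by
  classical
  let D' : ℕ → Prop := fun n => ∃ j : J, Encodable.encode j = n ∧ D j
  let e' : ℕ → List (ℕ × W) := fun n => ((Encodable.decode (α := J) n).map e).getD []
  have he'j : ∀ j : J, e' (Encodable.encode j) = e j := fun j => by simp [e']
  refine ⟨D', e', ?_, ?_, ?_, ?_, ?_⟩
  · have h1 : REPred fun x : ℕ × J => Encodable.encode x.2 = x.1 := by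
      have : ComputablePred fun p : ℕ × ℕ => p.1 = p.2 := Primrec.eq.computablePred
      exact (cp_comp this (Computable.pair (Computable.encode.comp Computable.snd)
        Computable.fst)).to_re
    exact re_exists (p := fun (n : ℕ) (j : J) => Encodable.encode j = n ∧ D j)
      (re_and h1 (re_comp hD Computable.snd))
  · exact Computable.option_getD (Computable.option_map Computable.decode
      (he.comp Computable.snd).to₂) (Computable.const [])
  · rintro n ⟨j, rfl, hj⟩
    rw [he'j]
    exact hU j hj
  · intro f hf hN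
    have hinj : Function.Injective (Encodable.encode : J → ℕ) := Encodable.encode_injective
    let g : J →₀ K := Finsupp.comapDomain Encodable.encode f (hinj.injOn)
    have hfg : f = Finsupp.mapDomain Encodable.encode g := by
      rw [Finsupp.mapDomain_comapDomain _ hinj]
      intro n hn
      obtain ⟨j, rfl, -⟩ := hf n hn
      exact ⟨j, rfl⟩
    have hg : g = 0 := by
      apply hli
      · intro j hj
        have : Encodable.encode j ∈ f.support := by
          rw [Finsupp.mem_support_iff] at hj ⊢
          exact hj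
        obtain ⟨j', hj', hD'⟩ := hf _ this
        rwa [← hinj hj']
      · have : Finsupp.linearCombination K (fun j => κ.ev m (e' j)) f =
            Finsupp.linearCombination K (fun j => κ.ev m (e j)) g := by
          have hfun : (fun j => κ.ev m (e' j)) ∘ Encodable.encode = fun j => κ.ev m (e j) := by
            funext j
            simp only [Function.comp]
            rw [he'j]
          rw [hfg, Finsupp.linearCombination_mapDomain, hfun]
        rw [← this]
        exact hN
    rw [hfg, hg, Finsupp.mapDomain_zero]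
  · refine hsp.trans (sup_le_sup_left (Submodule.span_mono ?_) _)
    rintro x ⟨j, hj, rfl⟩
    exact ⟨Encodable.encode j, ⟨j, rfl, hj⟩, by rw [he'j]⟩

theorem REB.refl (m : W → F) (N : Submodule K F) : κ.REB m N N :=
  ⟨fun _ => False, fun _ => [], re_const, Computable.const _, by simp, by
    intro f hf _
    ext j
    by_contra h
    exact hf j (Finsupp.mem_support_iff.2 h), le_sup_left⟩

variable {κ} in
theorem REB.congr {m : W → F} {N U N' U' : Submodule K F} (h : κ.REB m N U) (h1 : N = N')
    (h2 : U = U') : κ.REB m N' U' := by subst h1 h2; exact h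

variable {κ} in
/-- Transitivity: bases of `U / N` and `V / U` give a basis of `V / N`. -/
theorem REB.trans {m : W → F} {N U V : Submodule K F} (hNU : N ≤ U) (hUV : U ≤ V)
    (h1 : κ.REB m N U) (h2 : κ.REB m U V) : κ.REB m N V := by
  classical
  obtain ⟨D₁, e₁, hD₁, he₁, hU₁, hli₁, hsp₁⟩ := h1
  obtain ⟨D₂, e₂, hD₂, he₂, hU₂, hli₂, hsp₂⟩ := h2
  let D : ℕ ⊕ ℕ → Prop := fun x => Sum.elim D₁ D₂ x
  let e : ℕ ⊕ ℕ → List (ℕ × W) := fun x => Sum.elim e₁ e₂ x
  have hD : REPred D := by
    obtain ⟨q₁, hq₁, h₁⟩ := re_iff.1 hD₁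
    obtain ⟨q₂, hq₂, h₂⟩ := re_iff.1 hD₂
    refine re_iff.2 ⟨fun x n => Sum.elim (fun i => q₁ i n) (fun i => q₂ i n) x, ?_, ?_⟩
    · refine (Computable.sumCasesOn (f := fun x : (ℕ ⊕ ℕ) × ℕ => x.1) Computable.fst
        (g := fun x i => q₁ i x.2) (h := fun x i => q₂ i x.2)
        (hq₁.comp Computable.snd (Computable.snd.comp Computable.fst))
        (hq₂.comp Computable.snd (Computable.snd.comp Computable.fst))).of_eq ?_
      rintro ⟨x | x, n⟩ <;> rfl
    · rintro (x | x)
      · exact h₁ x
      · exact h₂ x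
  have he : Computable e := by
    refine (Computable.sumCasesOn (f := fun x : ℕ ⊕ ℕ => x) Computable.id
        (g := fun _ i => e₁ i) (h := fun _ i => e₂ i)
        (he₁.comp Computable.snd) (he₂.comp Computable.snd)).of_eq ?_
    rintro (x | x) <;> rfl
  refine REB.of_prim κ D e hD he ?_ ?_ ?_
  · rintro (j | j) hj
    · exact hUV (hU₁ j hj)
    · exact hU₂ j hj
  · intro f hf hN
    let f₁ : ℕ →₀ K := Finsupp.comapDomain Sum.inl f Sum.inl_injective.injOn
    let f₂ : ℕ →₀ K := Finsupp.comapDomain Sum.inr f Sum.inr_injective.injOn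
    have hff : f = Finsupp.mapDomain Sum.inl f₁ + Finsupp.mapDomain Sum.inr f₂ := by
      ext (j | j)
      · rw [Finsupp.add_apply, Finsupp.mapDomain_apply Sum.inl_injective,
          Finsupp.mapDomain_of_notMem_range _ _ (by simp)]
        simp [f₁]
      · rw [Finsupp.add_apply, Finsupp.mapDomain_apply Sum.inr_injective,
          Finsupp.mapDomain_of_notMem_range _ _ (by simp)]
        simp [f₂]
    have hlin : Finsupp.linearCombination K (fun j => κ.ev m (e j)) f =
        Finsupp.linearCombination K (fun j => κ.ev m (e₁ j)) f₁ +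
          Finsupp.linearCombination K (fun j => κ.ev m (e₂ j)) f₂ := by
      rw [hff, map_add, Finsupp.linearCombination_mapDomain, Finsupp.linearCombination_mapDomain]
      rfl
    have hs₁ : ∀ j ∈ f₁.support, D₁ j := fun j hj => hf (Sum.inl j) (by
      rw [Finsupp.mem_support_iff] at hj ⊢; exact hj)
    have hs₂ : ∀ j ∈ f₂.support, D₂ j := fun j hj => hf (Sum.inr j) (by
      rw [Finsupp.mem_support_iff] at hj ⊢; exact hj)
    have hm₁ : Finsupp.linearCombination K (fun j => κ.ev m (e₁ j)) f₁ ∈ U := by
      rw [Finsupp.linearCombination_apply]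
      exact Submodule.sum_mem _ fun j hj => U.smul_mem _ (hU₁ j (hs₁ j hj))
    have h2 : f₂ = 0 := by
      apply hli₂ _ hs₂
      rw [hlin] at hN
      have := U.sub_mem (hNU hN) hm₁
      simpa using this
    have h1 : f₁ = 0 := by
      apply hli₁ _ hs₁
      rw [hlin, h2] at hN
      simpa using hN
    rw [hff, h1, h2]
    simp
  · refine hsp₂.trans (sup_le (hsp₁.trans (sup_le_sup_left (Submodule.span_mono ?_) _))
      ((Submodule.span_mono ?_).trans le_sup_right))
    · rintro x ⟨j, hj, rfl⟩
      exact ⟨Sum.inl j, hj, rfl⟩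
    · rintro x ⟨j, hj, rfl⟩
      exact ⟨Sum.inr j, hj, rfl⟩

variable {κ} in
/-- A recursively enumerable subspace with a recursively enumerable basis of the quotient is
decidable. -/
theorem REB.dec {m : W → F} {N U : Submodule K F} (h : κ.REB m N U) (hU : ∀ w, m w ∈ U)
    (hN : κ.RESub m N) : ComputablePred fun P : List (ℕ × W) => κ.ev m P ∈ N := by
  obtain ⟨D, e, hD, he, -, hli, hsp⟩ := h
  exact κ.dec_of_re_basis m N hN D hD e he hli fun w => hsp (hU w)

end CField

end Pool.Agent.H.MP_f5ceca_al.Conv
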